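import Pool.Agent.X312.FK.HomDefs

/-!
# Functors on Chow motives: definitions
-/

open CategoryTheory AlgebraicGeometry

universe u v

namespace Pool.Agent.X312.FK

open Pool.Agent.H914 Pool.Agent.H914.VarClass Pool.Agent.H914.VarClass.Obj
  Pool.Agent.H914.WeilCohomology Pool.Agent.H281R3.HT

variable {k : Type u} [Field k] {𝒱 : VarClass k} {ops : CycleOps 𝒱}

/-- Data of a category of algebraic correspondences with coefficients in the field `K` of coefficients
of the cohomology (in the intended use `A X Y` is the Chow group `CH(X × Y) ⊗ K` of cycles of all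
codimensions). -/
structure ChowData (W : WeilCohomology.{u, v} ops) where
  /-- the correspondences from `X` to `Y` -/
  A : 𝒱.Obj → 𝒱.Obj → Type v
  [grp : ∀ X Y, AddCommGroup (A X Y)]
  [mod : ∀ X Y, Module W.K (A X Y)]
  /-- the class of the diagonal -/
  one : ∀ X, A X X
  /-- the composition: first `a`, then `b` -/
  comp : ∀ {X Y Z : 𝒱.Obj}, A X Y → A Y Z → A X Z
  /-- the cohomology class of a correspondence -/
  cl : ∀ {X Y : 𝒱.Obj}, A X Y → W.H (X.prod Y)

attribute [instance] ChowData.grp ChowData.mod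

variable {W : WeilCohomology.{u, v} ops}

/-- The cohomology classes are linear and compatible with composition, and the classes of
correspondences are exactly the linear combinations of classes of algebraic cycles. -/
structure ChowData.IsChow (C : ChowData W) : Prop where
  cl_add : ∀ {X Y : 𝒱.Obj} (a b : C.A X Y), C.cl (a + b) = C.cl a + C.cl b
  cl_smul : ∀ {X Y : 𝒱.Obj} (t : W.K) (a : C.A X Y), C.cl (t • a) = t • C.cl a
  cl_one : ∀ X : 𝒱.Obj, C.cl (C.one X) = diagClass W X
  cl_comp : ∀ {X Y Z : 𝒱.Obj} (a : C.A X Y) (b : C.A Y Z),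
    C.cl (C.comp a b) = composite W (C.cl a) (C.cl b)
  range_cl : ∀ (X Y : 𝒱.Obj) (h : W.H (X.prod Y)), (∃ a : C.A X Y, C.cl a = h) ↔ IsAlgClass h

/-- The powers of a self-correspondence for the composition. -/
def ChowData.pow (C : ChowData W) {X : 𝒱.Obj} (a : C.A X X) : ℕ → C.A X X
  | 0 => C.one X
  | n + 1 => C.comp (C.pow a n) a

/-- The self-correspondence `a` is numerically trivial. -/
def ChowData.NumTriv (C : ChowData W) {X : 𝒱.Obj} (a : C.A X X) : Prop :=
  ∀ b : C.A X X, W.tr (X.prod X) (cup W (C.cl a) (C.cl b)) = 0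

/-- The numerically trivial self-correspondences of `X` (sums of correspondences of arbitrary degrees)
are nilpotent. -/
def ChowData.NumNil (C : ChowData W) (X : 𝒱.Obj) : Prop :=
  ∀ a : C.A X X, C.NumTriv a → ∃ n, C.pow a n = 0

/-- Data of a functor on correspondences. -/
structure ChowModule (C : ChowData W) where
  /-- the vector space attached to `X` -/
  M : 𝒱.Obj → Type v
  [grp : ∀ X, AddCommGroup (M X)]
  [mod : ∀ X, Module W.K (M X)]
  /-- the action of correspondences -/
  act : ∀ {X Y : 𝒱.Obj}, C.A X Y → M X → M Y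

attribute [instance] ChowModule.grp ChowModule.mod

/-- The action is bilinear and compatible with the composition. -/
structure ChowModule.IsFunctor {C : ChowData W} (T : ChowModule C) : Prop where
  act_add : ∀ {X Y : 𝒱.Obj} (a : C.A X Y) (x y : T.M X), T.act a (x + y) = T.act a x + T.act a y
  act_smul : ∀ {X Y : 𝒱.Obj} (a : C.A X Y) (t : W.K) (x : T.M X),
    T.act a (t • x) = t • T.act a x
  add_act : ∀ {X Y : 𝒱.Obj} (a b : C.A X Y) (x : T.M X), T.act (a + b) x = T.act a x + T.act b x
  smul_act : ∀ {X Y : 𝒱.Obj} (t : W.K) (a : C.A X Y) (x : T.M X),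
    T.act (t • a) x = t • T.act a x
  one_act : ∀ (X : 𝒱.Obj) (x : T.M X), T.act (C.one X) x = x
  comp_act : ∀ {X Y Z : 𝒱.Obj} (a : C.A X Y) (b : C.A Y Z) (x : T.M X),
    T.act (C.comp a b) x = T.act b (T.act a x)

/-- The maps `c Z : S(Z) → T(Z)` are linear and commute with the correspondences. -/
structure IsRegulator {C : ChowData W} (S T : ChowModule C) (c : ∀ Z : 𝒱.Obj, S.M Z → T.M Z) :
    Prop where
  add : ∀ (Z : 𝒱.Obj) (x y : S.M Z), c Z (x + y) = c Z x + c Z y
  smul : ∀ (Z : 𝒱.Obj) (t : W.K) (x : S.M Z), c Z (t • x) = t • c Z x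
  nat : ∀ {Z Z' : 𝒱.Obj} (a : C.A Z Z') (x : S.M Z), c Z' (S.act a x) = T.act a (c Z x)

end Pool.Agent.X312.FK
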