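import Pool.Agent.X312.FC.RankDefs
import Pool.Agent.X312.FK.ChowDefs

/-!
# Irreducible motives: definitions
-/

open CategoryTheory AlgebraicGeometry

universe u v

namespace Pool.Agent.X312.FK

open Pool.Agent.H914 Pool.Agent.H914.VarClass Pool.Agent.H914.VarClass.Obj
  Pool.Agent.H914.WeilCohomology

variable {k : Type u} [Field k] {𝒱 : VarClass k} {ops : CycleOps 𝒱}
  {W : WeilCohomology.{u, v} ops}

/-- The idempotent class `g` of correspondences is irreducible among the classes with the property
`P`: there is no idempotent class with the property `P` below `g` except `0` and `g`. -/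
def IrreducibleIn {Z : 𝒱.Obj} (P : W.H (Z.prod Z) → Prop) (g : W.H (Z.prod Z)) : Prop :=
  ∀ h : W.H (Z.prod Z), P h → composite W h h = h → composite W g h = h →
    composite W h g = h → h = 0 ∨ h = g

/-- The subspaces `N Z` of `T Z` are stable under the correspondences. -/
def IsStableIn {C : ChowData W} (T : ChowModule C) (N : ∀ Z : 𝒱.Obj, Submodule W.K (T.M Z)) :
    Prop :=
  ∀ (Z Z' : 𝒱.Obj) (a : C.A Z Z') (x : T.M Z), x ∈ N Z → T.act a x ∈ N Z'

end Pool.Agent.X312.FK
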