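import Mathlib

/-!
# Large dimension
-/

universe v

namespace Pool.Agent.X312.FK

/-- The number `(1 - 4 (m + 3) b ^ (m + 5) log (n + 1) / n) ρ`, with `m` and `n` replaced by `m + 1` and
`n + 1`. -/
noncomputable def gapBound (b ρ m n : ℕ) : ℝ :=
  (1 - 4 * (m + 4) * (b : ℝ) ^ (m + 6) * Real.log (n + 2) / (n + 1)) * ρ

/-- There are at least `x` elements of `S` which are linearly independent over `K` modulo the
subspace `N`. -/
def IndepMod {K : Type v} [Field K] {M : Type v} [AddCommGroup M] [Module K M] (S : Set M)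
    (N : Submodule K M) (x : ℝ) : Prop :=
  ∃ (r : ℕ) (a : Fin r → M), x ≤ r ∧ LinearIndependent K (fun i => N.mkQ (a i)) ∧ ∀ i, a i ∈ S

/-- The dimension of the vector space `M` over `K` is at least `x`. -/
def DimAtLeast (K : Type v) [Field K] (M : Type v) [AddCommGroup M] [Module K M] (x : ℝ) : Prop :=
  ∃ (r : ℕ) (a : Fin r → M), x ≤ r ∧ LinearIndependent K a

end Pool.Agent.X312.FK
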