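import Pool.Agent.X312.FK.HomDefs
import Pool.Agent.X312.FK.IndDefs
import Pool.Agent.X312.FN.Law

/-!
# Functors on homological motives: gap laws
-/

open CategoryTheory AlgebraicGeometry

universe u v w

namespace Pool.Agent.X312.FK

open Module Polynomial
open Pool.Agent.H914 Pool.Agent.H914.VarClass Pool.Agent.H914.VarClass.Obj
  Pool.Agent.H914.WeilCohomology Pool.Agent.Y133.Half Pool.Agent.Y133.Half.Sys
  Pool.Agent.H281R3.HT Pool.Agent.W536.RR Pool.Agent.X312.RL

variable {k : Type u} [Field k] {𝒱 : VarClass k} {ops : CycleOps 𝒱}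
  {W : WeilCohomology.{u, v} ops} {X Y Z P : 𝒱.Obj}

/-- The pairs of operators. -/
def hOps (T : HomData W) : Ops W W.K T.M :=
  fun Z Z' => {a | ∃ c ∈ algSpan W (Z.prod Z'), a.2 = W.corr c ∧ ∀ x, a.1 x = T.act c x}

variable {T : HomData W} (hT : T.IsFunctor)
include hT

/-- The action as a linear map. -/
noncomputable def actL (c : W.H (X.prod Y)) : T.M X →ₗ[W.K] T.M Y where
  toFun := T.act c
  map_add' := hT.act_add c
  map_smul' t x := hT.act_smul c t x

lemma zero_act (x : T.M X) : T.act (0 : W.H (X.prod Y)) x = 0 := by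
  have h := hT.smul_act (0 : W.K) (0 : W.H (X.prod Y)) x
  rwa [zero_smul, zero_smul] at h

lemma h_isMdl : IsMdl (algSys W) (RingHom.id W.K) (hOps T) := by
  refine ⟨?_, ?_, ?_, ?_, ?_⟩
  · rintro Z Z' a b ⟨c, hc, h1, h2⟩ ⟨d, hd, h3, h4⟩
    refine ⟨c + d, Submodule.add_mem _ hc hd, ?_, fun x => ?_⟩
    · change a.2 + b.2 = _
      rw [h1, h3, corr_add]
    · change (a.1 + b.1) x = _
      rw [LinearMap.add_apply, h2, h4, hT.add_act]
  · rintro Z Z' t a ⟨c, hc, h1, h2⟩
    refine ⟨t • c, Submodule.smul_mem _ _ hc, ?_, fun x => ?_⟩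
    · change t • a.2 = _
      rw [h1, corr_smul]
    · change (t • a.1) x = _
      rw [LinearMap.smul_apply, h2, hT.smul_act]
  · intro Z
    refine ⟨diagClass W Z, ?_, ?_, fun x => ?_⟩
    · have h1 : (LinearMap.id : W.H Z →ₗ[W.K] W.H Z) ∈ (algSys W).Op Z Z := Op.id
      obtain ⟨c, hc, hc'⟩ := mem_Op.1 h1
      have h2 : W.corr (diagClass W Z) = LinearMap.id := by
        rw [diagClass, pf, unitClass, corr_diag_one]
      have h3 : c = diagClass W Z := corrL_injective Z Z (hc'.trans h2.symm)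
      rw [← h3]
      exact hc
    · change LinearMap.id = _
      rw [diagClass, pf, unitClass, corr_diag_one]
    · exact (hT.diag_act Z x).symm
  · rintro Z Z' Z'' a b ⟨c, hc, h1, h2⟩ ⟨d, hd, h3, h4⟩
    have h5 : W.corr (composite W d c) = W.corr c ∘ₗ W.corr d := by
      rw [composite, pf, cup, pb, pb]
      exact corr_comp' _ ((algSys W).even hc)
    refine ⟨composite W d c, ?_, ?_, fun x => ?_⟩
    · have h6 : W.corr c ∘ₗ W.corr d ∈ (algSys W).Op Z Z'' :=
        Op.comp (mem_Op.2 ⟨c, hc, rfl⟩) (mem_Op.2 ⟨d, hd, rfl⟩)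
      obtain ⟨e, he, he'⟩ := mem_Op.1 h6
      have h7 : e = composite W d c := corrL_injective Z Z'' (he'.trans h5.symm)
      rw [← h7]
      exact he
    · change a.2 ∘ₗ b.2 = _
      rw [h5, h1, h3]
    · change a.1 (b.1 x) = _
      rw [h2, h4, hT.comp_act d c hd hc]
  · intro Z Z'
    have h1 : Prod.snd '' hOps T Z Z' = ((algSys W).Op Z Z' : Set (W.H Z →ₗ[W.K] W.H Z')) := by
      ext u
      constructor
      · rintro ⟨a, ⟨c, hc, h1, h2⟩, rfl⟩
        exact mem_Op.2 ⟨c, hc, h1.symm⟩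
      · intro hu
        obtain ⟨c, hc, rfl⟩ := mem_Op.1 hu
        exact ⟨(actL hT c, W.corr c), ⟨c, hc, rfl, fun _ => rfl⟩, rfl⟩
    rw [h1, Submodule.span_eq]

lemma h_fine (P : 𝒱.Obj) : Fine (RingHom.id W.K) (hOps T) P := by
  refine ⟨?_, ?_⟩
  · rintro ⟨a, b⟩ hab
    refine ⟨LinearMap.charpoly b, b.charpoly_monic.ne_zero, ?_, ?_⟩
    · have h1 := (h_isMdl hT).aeval_mem (x := (a, b)) hab b.charpoly
      obtain ⟨c, hc, h2, h3⟩ := h1
      have h4 : aeval (b : Module.End W.K (W.H P)) (b.charpoly.map (RingHom.id W.K)) = 0 := by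
        rw [Polynomial.map_id]
        exact LinearMap.aeval_self_charpoly b
      have h5 : c = 0 := by
        apply corrL_injective P P
        change W.corr c = W.corr 0
        rw [corr_zero, ← h2]
        exact h4
      apply LinearMap.ext
      intro x
      have h6 := h3 x
      rw [h5, zero_act hT] at h6
      exact h6
    · rw [Polynomial.map_id]
      exact LinearMap.aeval_self_charpoly b
  · rintro ⟨a, b⟩ ⟨c, hc, h1, h2⟩ - h0
    change b = 0 at h0
    change b = W.corr c at h1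
    change ∀ x, a x = T.act c x at h2
    have h5 : c = 0 := by
      apply corrL_injective P P
      change W.corr c = W.corr 0
      rw [corr_zero, ← h1, h0]
    change a = 0
    apply LinearMap.ext
    intro x
    rw [h2, h5, zero_act hT]
    rfl

omit hT in
lemma h_stable {N : ∀ Z : 𝒱.Obj, Submodule W.K (T.M Z)} (hN : T.IsStable N) :
    Stable (hOps T) N := by
  rintro Z Z' ⟨a, b⟩ ⟨c, hc, _, h2⟩ x hx
  change a x ∈ _
  rw [show a x = T.act c x from h2 x]
  exact hN Z Z' c hc x hx

/-- **The gap law for functors on homological motives.** -/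
theorem hom_law (X : 𝒱.Obj) (hn : ∀ n, HomEqNum W (pw X n))
    {N' N : ∀ Z : 𝒱.Obj, Submodule W.K (T.M Z)} (hN' : T.IsStable N') (hN : T.IsStable N) (m : ℕ) :
    N (pw X m) ≤ N' (pw X m) ∨
    ∀ n : ℕ, IndepMod (N (pw X n) : Set (T.M (pw X n))) (N' (pw X n))
      (gapBound (finrank W.K (W.H X)) (cycRank ops (pw X n)) m n) := by
  by_cases hne : N (pw X m) ≤ N' (pw X m)
  · exact Or.inl hne
  right
  intro n
  have key : gapBound (finrank W.K (W.H X)) (cycRank ops (pw X n)) m n ≤
      finrank W.K ((N (pw X n)).map (N' (pw X n)).mkQ) := by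
    unfold gapBound
    rcases (algSys W).exists_one_or X with ⟨l, hl, hl1⟩ | h0
    swap
    · rw [← numDim_eq_cycRank W, h0, Nat.cast_zero, mul_zero]
      exact Nat.cast_nonneg _
    have hst : Stable (hOps T) (fun Z => N' Z ⊓ N Z) := fun Z Z' a ha x hx =>
      ⟨h_stable hN' Z Z' a ha x hx.1, h_stable hN Z Z' a ha x hx.2⟩
    have hne' : (N' (pw X m) ⊓ N (pw X m)) ≠ N (pw X m) := fun h =>
      hne (fun x hx => (h.symm ▸ hx : x ∈ N' (pw X m) ⊓ N (pw X m)).1)
    have hb := (h_isMdl hT).bound hl hl1 (fun n => h_fine hT (pw X n)) hst (h_stable hN)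
      (fun _ => inf_le_right) hne' (le_refl (2 : ℝ)) n inferInstance
    rw [Pool.Agent.X312.CH.cst_expand, numDim_eq_cycRank] at hb
    have hdim : finrank W.K ((N (pw X n)).map (N' (pw X n)).mkQ) +
        finrank W.K (N' (pw X n) ⊓ N (pw X n) : Submodule W.K (T.M (pw X n))) =
          finrank W.K (N (pw X n)) := by
      let f : N (pw X n) →ₗ[W.K] T.M (pw X n) ⧸ N' (pw X n) :=
        (N' (pw X n)).mkQ ∘ₗ (N (pw X n)).subtype
      have h1 := f.finrank_range_add_finrank_ker
      have h2 : LinearMap.range f = (N (pw X n)).map (N' (pw X n)).mkQ := by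
        rw [LinearMap.range_comp, Submodule.range_subtype]
      have h3 : finrank W.K (LinearMap.ker f) =
          finrank W.K (N' (pw X n) ⊓ N (pw X n) : Submodule W.K (T.M (pw X n))) := by
        have h4 : (LinearMap.ker f).map (N (pw X n)).subtype = N' (pw X n) ⊓ N (pw X n) := by
          ext x
          constructor
          · rintro ⟨y, hy, rfl⟩
            refine ⟨?_, y.2⟩
            exact (Submodule.Quotient.mk_eq_zero _).1 (LinearMap.mem_ker.1 hy)
          · rintro ⟨hx, hx'⟩
            exact ⟨⟨x, hx'⟩, LinearMap.mem_ker.2 ((Submodule.Quotient.mk_eq_zero _).2 hx), rfl⟩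
        rw [← h4]
        exact (Submodule.equivMapOfInjective _ (Submodule.injective_subtype _) _).finrank_eq
      rw [h2, h3] at h1
      exact h1
    have hdim' : (finrank W.K ((N (pw X n)).map (N' (pw X n)).mkQ) : ℝ) +
        finrank W.K (N' (pw X n) ⊓ N (pw X n) : Submodule W.K (T.M (pw X n))) =
          finrank W.K (N (pw X n)) := by exact_mod_cast hdim
    rcases hb with h | h
    · linarith
    · have h1 := h (algSys W)
      have h2 := hn n
      rw [homEqNum_iff'] at h2
      have h3 : (2 : ℝ) * cycRank ops (pw X n) ≤ finrank W.K (algSpan W (pw X n)) := h1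
      rw [← h2] at h3
      have h4 : (0 : ℝ) ≤ cycRank ops (pw X n) := Nat.cast_nonneg _
      have h5 : (cycRank ops (pw X n) : ℝ) = 0 := by linarith
      rw [h5, mul_zero]
      exact Nat.cast_nonneg _
  obtain ⟨r, a, h1, h2, h3⟩ := Pool.Agent.X312.FN.indep_of (N' (pw X n)) (N (pw X n))
    (fun _ => key)
  rw [Submodule.span_eq] at h2
  exact ⟨r, a, h1, h2, h3⟩

end Pool.Agent.X312.FK
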