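import Pool.Agent.X312.FK.ChowDefs
import Pool.Agent.X312.FK.Hom
import Pool.Agent.X312.FN.Comb

/-!
# Functors on Chow motives: gap laws
-/

open CategoryTheory AlgebraicGeometry

universe u v

namespace Pool.Agent.X312.FK

open Module
open Pool.Agent.H914 Pool.Agent.H914.VarClass Pool.Agent.H914.VarClass.Obj
  Pool.Agent.H914.WeilCohomology Pool.Agent.Y133.Half Pool.Agent.Y133.Half.Sys
  Pool.Agent.H281R3.HT Pool.Agent.W536.RR
open Pool.Agent.X312.FN (CorrCat CorrFunctor Regulator)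

variable {k : Type u} [Field k] {𝒱 : VarClass k} {ops : CycleOps 𝒱}
  {W : WeilCohomology.{u, v} ops} {X Y Z : 𝒱.Obj}

lemma mem_cyc_iff (h : W.H X) :
    IsAlgClass h ↔ h ∈ Pool.Agent.X312.FN.cycClasses W (RingHom.id W.K) X := by
  constructor
  · intro hh
    refine algSpan_induction
      (p := fun c => c ∈ Pool.Agent.X312.FN.cycClasses W (RingHom.id W.K) X) ?_ ?_ ?_ ?_ hh
    · exact AddSubgroup.zero_mem _
    · intro a b ha hb; exact AddSubgroup.add_mem _ ha hb
    · intro t a ha; exact Pool.Agent.X312.FN.cyc_smul (σ := RingHom.id W.K) t ha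
    · intro j z hz; exact Pool.Agent.X312.FN.cl_mem_cyc hz
  · intro hh
    exact Pool.Agent.X312.FN.cyc_le_alg hh

variable {C : ChowData W}

/-- The category of correspondences in the other form. -/
@[reducible] def cat (C : ChowData W) : CorrCat W (RingHom.id W.K) where
  A := C.A
  id := C.one
  comp := C.comp
  cl := C.cl

lemma cat_lawful (hC : C.IsChow) : (cat C).IsLawful where
  cl_add := hC.cl_add
  cl_smul := hC.cl_smul
  cl_id X := by
    change C.cl (C.one X) = _
    rw [hC.cl_one]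
    rfl
  cl_comp a b := by
    change C.cl (C.comp a b) = _
    rw [hC.cl_comp]
    rfl
  range_cl X Y h := by
    rw [← mem_cyc_iff]
    exact hC.range_cl X Y h

lemma cat_pow (a : C.A X X) (n : ℕ) : (cat C).pow a n = C.pow a n := by
  induction n with
  | zero => rfl
  | succ n ih =>
    rw [CorrCat.pow, ih]
    rfl

lemma cat_nil (h : C.NumNil X) : (cat C).NumNil X := by
  intro a ha
  obtain ⟨n, hn⟩ := h a ha
  exact ⟨n, by rw [cat_pow]; exact hn⟩

/-- The functor in the other form. -/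
@[reducible] def fn {T : ChowModule C} (hT : T.IsFunctor) : CorrFunctor (cat C) where
  M := T.M
  map a :=
    { toFun := T.act a
      map_add' := hT.act_add a
      map_smul' := fun t x => hT.act_smul a t x }
  map_add a b := LinearMap.ext (hT.add_act a b)
  map_smul t a := LinearMap.ext (hT.smul_act t a)
  map_id X := LinearMap.ext (hT.one_act X)
  map_comp a b := LinearMap.ext (hT.comp_act a b)

/-- The natural transformation in the other form. -/
@[reducible] def reg {S T : ChowModule C} (hS : S.IsFunctor) (hT : T.IsFunctor)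
    {c : ∀ Z : 𝒱.Obj, S.M Z → T.M Z} (hc : IsRegulator S T c) : Regulator (fn hS) (fn hT) where
  c Z :=
    { toFun := c Z
      map_add' := hc.add Z
      map_smul' := fun t x => hc.smul Z t x }
  nat a x := hc.nat a x

lemma indepMod_conv {M : Type v} [AddCommGroup M] [Module W.K M] {S : Set M}
    {N : Submodule W.K M} {x : ℝ} (h : Pool.Agent.X312.FN.IndepModulo W.K S (N : Set M) x) :
    IndepMod S N x := by
  obtain ⟨r, a, h1, h2, h3⟩ := h
  rw [Submodule.span_eq] at h2
  exact ⟨r, a, h1, h2, h3⟩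

/-- The gap law for two stable families. -/
theorem chow_law (hC : C.IsChow) {T : ChowModule C} (hT : T.IsFunctor) (X : 𝒱.Obj)
    (hX : ∀ n, C.NumNil (pw X n)) (hn : ∀ n, HomEqNum W (pw X n))
    {N' N : ∀ Z : 𝒱.Obj, Submodule W.K (T.M Z)}
    (hN' : ∀ (Z Z' : 𝒱.Obj) (a : C.A Z Z') (x : T.M Z), x ∈ N' Z → T.act a x ∈ N' Z')
    (hN : ∀ (Z Z' : 𝒱.Obj) (a : C.A Z Z') (x : T.M Z), x ∈ N Z → T.act a x ∈ N Z') (m : ℕ) :
    N (pw X m) ≤ N' (pw X m) ∨
    ∀ n : ℕ, IndepMod (N (pw X n) : Set (T.M (pw X n))) (N' (pw X n))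
      (gapBound (finrank W.K (W.H X)) (cycRank ops (pw X n)) m n) := by
  rcases Pool.Agent.X312.FN.pair_law (cat_lawful hC) (fn hT) X (fun n => cat_nil (hX n)) hn
    (N' := N') (N := N) hN' hN m with h | h
  · exact Or.inl h
  · exact Or.inr fun n => indepMod_conv (h n)

variable {S T : ChowModule C} {c : ∀ Z : 𝒱.Obj, S.M Z → T.M Z}

/-- The kernel of a regulator. -/
theorem kernel_chow (hC : C.IsChow) (hS : S.IsFunctor) (hT : T.IsFunctor) (hc : IsRegulator S T c)
    (X : 𝒱.Obj) (hX : ∀ n, C.NumNil (pw X n)) (hn : ∀ n, HomEqNum W (pw X n)) (m : ℕ) :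
    (∀ x : S.M (pw X m), c _ x = 0 → x = 0) ∨
    ∀ n : ℕ, IndepMod {x : S.M (pw X n) | c _ x = 0} (⊥ : Submodule W.K (S.M (pw X n)))
      (gapBound (finrank W.K (W.H X)) (cycRank ops (pw X n)) m n) := by
  rcases Pool.Agent.X312.FN.pair_law (cat_lawful hC) (fn hS) X (fun n => cat_nil (hX n)) hn
    (Pool.Agent.X312.FN.bot_stable (fn hS)) (Pool.Agent.X312.FN.ker_stable (reg hS hT hc)) m
      with h | h
  · exact Or.inl fun x hx => (Submodule.mem_bot W.K).1 (h hx)
  · exact Or.inr fun n => indepMod_conv (h n)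

/-- The cokernel of a regulator. -/
theorem coker_chow (hC : C.IsChow) (hS : S.IsFunctor) (hT : T.IsFunctor) (hc : IsRegulator S T c)
    (X : 𝒱.Obj) (hX : ∀ n, C.NumNil (pw X n)) (hn : ∀ n, HomEqNum W (pw X n))
    {N : ∀ Z : 𝒱.Obj, Submodule W.K (T.M Z)}
    (hN : ∀ (Z Z' : 𝒱.Obj) (a : C.A Z Z') (x : T.M Z), x ∈ N Z → T.act a x ∈ N Z') (m : ℕ) :
    (∀ y ∈ N (pw X m), ∃ x, c _ x = y) ∨
    ∀ n : ℕ, IndepMod (N (pw X n) : Set (T.M (pw X n)))
      (Submodule.span W.K (Set.range (c (pw X n))))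
      (gapBound (finrank W.K (W.H X)) (cycRank ops (pw X n)) m n) := by
  rcases Pool.Agent.X312.FN.pair_law (cat_lawful hC) (fn hT) X (fun n => cat_nil (hX n)) hn
    (Pool.Agent.X312.FN.range_stable (reg hS hT hc)) (N := N) hN m with h | h
  · exact Or.inl fun y hy => h hy
  · right
    intro n
    obtain ⟨r, a, h1, h2, h3⟩ := h n
    exact ⟨r, a, h1, h2, h3⟩

end Pool.Agent.X312.FK
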