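import Pool.Agent.X312.FK.FrobDefs
import Pool.Agent.X312.FK.IndDefs

/-!
# Orthogonal idempotents on functors of Chow motives
-/

open CategoryTheory AlgebraicGeometry

universe u v

namespace Pool.Agent.X312.FK

open Pool.Agent.H914 Pool.Agent.H914.VarClass Pool.Agent.H914.VarClass.Obj
  Pool.Agent.H914.WeilCohomology

variable {k : Type u} [Field k] {𝒱 : VarClass k} {ops : CycleOps 𝒱}
  {W : WeilCohomology.{u, v} ops} {C : ChowData W}

/-- The maps `e i : T(Z) → T(Z)` are linear, commute with the correspondences, and they are orthogonal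
idempotents. -/
structure ChowModule.IsOrthogonal (T : ChowModule C) {ι : Type}
    (e : ι → ∀ Z : 𝒱.Obj, T.M Z → T.M Z) : Prop where
  nat : ∀ i, T.IsFrobenius (e i)
  idem : ∀ (i : ι) (Z : 𝒱.Obj) (x : T.M Z), e i Z (e i Z x) = e i Z x
  orth : ∀ (i j : ι) (Z : 𝒱.Obj) (x : T.M Z), i ≠ j → e i Z (e j Z x) = 0

end Pool.Agent.X312.FK
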