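import Pool.Agent.X312.FK.Frob
import Pool.Agent.X312.FK.Chow
import Pool.Agent.X312.FK.IdemDefs

/-!
# Orthogonal idempotents: gap law
-/

open CategoryTheory AlgebraicGeometry

universe u v

namespace Pool.Agent.X312.FK

open Module
open Pool.Agent.H914 Pool.Agent.H914.VarClass Pool.Agent.H914.VarClass.Obj
  Pool.Agent.H914.WeilCohomology Pool.Agent.Y133.Half Pool.Agent.Y133.Half.Sys
  Pool.Agent.H281R3.HT

/-- Independent families in the images of orthogonal idempotents. -/
lemma indep_sigma {K M : Type v} [Field K] [AddCommGroup M] [Module K M] {ι : Type} [Fintype ι]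
    (e : ι → M →ₗ[K] M) (hidem : ∀ i x, e i (e i x) = e i x)
    (horth : ∀ i j x, i ≠ j → e i (e j x) = 0) {r : ι → ℕ} (a : ∀ i, Fin (r i) → M)
    (ha : ∀ i, LinearIndependent K (a i)) (ha' : ∀ i j, e i (a i j) = a i j) :
    LinearIndependent K (fun s : Σ i, Fin (r i) => a s.1 s.2) := by
  classical
  rw [Fintype.linearIndependent_iff]
  intro c hc
  rintro ⟨i, j⟩
  have h1 : ∑ j : Fin (r i), c ⟨i, j⟩ • a i j = 0 := by
    have h2 := congrArg (e i) hc
    rw [map_zero, map_sum, Fintype.sum_sigma] at h2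
    rw [Finset.sum_eq_single i] at h2
    · refine Eq.trans (Finset.sum_congr rfl fun j _ => ?_) h2
      rw [map_smul, ha' i j]
    · intro i' _ hne
      refine Finset.sum_eq_zero fun j _ => ?_
      rw [map_smul, ← ha' i' j, horth i i' _ (Ne.symm hne), smul_zero]
    · intro h
      exact absurd (Finset.mem_univ i) h
  exact (Fintype.linearIndependent_iff.1 (ha i)) (fun j => c ⟨i, j⟩) h1 j

variable {k : Type u} [Field k] {𝒱 : VarClass k} {ops : CycleOps 𝒱}
  {W : WeilCohomology.{u, v} ops} {C : ChowData W} {T : ChowModule C} {ι : Type}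
  {e : ι → ∀ Z : 𝒱.Obj, T.M Z → T.M Z}

/-- The image of the idempotent. -/
def imE (he : T.IsOrthogonal e) (i : ι) (Z : 𝒱.Obj) : Submodule W.K (T.M Z) :=
  LinearMap.range (frobL (he.nat i) Z)

/-- **The law for orthogonal idempotents.** -/
theorem idem_law (hC : C.IsChow) (hT : T.IsFunctor) [Finite ι] (he : T.IsOrthogonal e)
    (X : 𝒱.Obj) (hX : ∀ n, C.NumNil (pw X n)) (hn : ∀ n, HomEqNum W (pw X n)) (m n : ℕ) :
    DimAtLeast W.K (T.M (pw X n)) (Set.ncard {i : ι | ∃ x : T.M (pw X m), e i _ x ≠ 0} *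
      gapBound (finrank W.K (W.H X)) (cycRank ops (pw X n)) m n) := by
  classical
  have hfin : Fintype ι := Fintype.ofFinite ι
  set g := gapBound (finrank W.K (W.H X)) (cycRank ops (pw X n)) m n with hg
  have key : ∀ i : ι, ∃ (r : ℕ) (a : Fin r → T.M (pw X n)),
      ((∃ x : T.M (pw X m), e i _ x ≠ 0) → g ≤ r) ∧ LinearIndependent W.K a ∧
      ∀ j, e i _ (a j) = a j := by
    intro i
    by_cases h0 : ∃ x : T.M (pw X m), e i _ x ≠ 0
    · rcases chow_law hC hT X hX hn (N' := fun _ => ⊥) (N := imE he i)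
        (by
          intro Z Z' a x hx
          rw [(Submodule.mem_bot W.K).1 hx]
          exact (Submodule.mem_bot W.K).2 (map_zero ((fn hT).map a)))
        (by
          rintro Z Z' a _ ⟨x, rfl⟩
          exact ⟨T.act a x, ((he.nat i).comm a x).symm⟩) m with h | h
      · obtain ⟨x, hx⟩ := h0
        exact absurd ((Submodule.mem_bot W.K).1 (h ⟨x, rfl⟩)) hx
      · obtain ⟨r, a, h1, h2, h3⟩ := h n
        refine ⟨r, a, fun _ => h1, ?_, ?_⟩
        · exact LinearIndependent.of_comp (⊥ : Submodule W.K (T.M (pw X n))).mkQ h2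
        · intro j
          obtain ⟨x, hx⟩ := h3 j
          rw [← hx]
          exact he.idem i _ x
    · exact ⟨0, Fin.elim0, fun h => absurd h h0, linearIndependent_empty_type, fun j => j.elim0⟩
  choose r a hr ha ha' using key
  have hlin := indep_sigma (fun i => frobL (he.nat i) (pw X n)) (fun i x => he.idem i _ x)
    (fun i j x hij => he.orth i j _ x hij) a ha ha'
  refine ⟨Fintype.card (Σ i, Fin (r i)), fun j => a _ ((Fintype.equivFin _).symm j).2, ?_, ?_⟩
  · rw [Fintype.card_sigma]
    have h1 : Set.ncard {i : ι | ∃ x : T.M (pw X m), e i _ x ≠ 0} =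
        (Finset.univ.filter (fun i : ι => ∃ x : T.M (pw X m), e i _ x ≠ 0)).card := by
      rw [← Set.ncard_coe_finset]
      congr 1
      ext i
      simp
    rw [h1]
    simp only [Fintype.card_fin]
    have h2 : ((Finset.univ.filter (fun i : ι => ∃ x : T.M (pw X m), e i _ x ≠ 0)).card : ℝ) * g ≤
        ∑ i ∈ Finset.univ.filter (fun i : ι => ∃ x : T.M (pw X m), e i _ x ≠ 0), (r i : ℝ) := by
      rw [← nsmul_eq_mul]
      exact Finset.card_nsmul_le_sum _ _ _ fun i hi => hr i (Finset.mem_filter.1 hi).2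
    refine h2.trans ?_
    push_cast
    exact Finset.sum_le_sum_of_subset_of_nonneg (Finset.filter_subset _ _)
      (fun i _ _ => Nat.cast_nonneg _)
  · exact hlin.comp _ (Fintype.equivFin _).symm.injective

end Pool.Agent.X312.FK
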