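import Pool.Agent.X312.FK.Prim
import Pool.Agent.X312.FK.Idem
import Pool.Agent.X312.FK.IndDefs

/-!
# Functors on Chow motives: irreducible motives, final forms
-/

open CategoryTheory AlgebraicGeometry

universe u v

namespace Pool.Agent.X312.FK

open Module
open Pool.Agent.H914 Pool.Agent.H914.VarClass Pool.Agent.H914.VarClass.Obj
  Pool.Agent.H914.WeilCohomology Pool.Agent.Y133.Half Pool.Agent.Y133.Half.Sys
  Pool.Agent.H281R3.HT Pool.Agent.W536.RR
open Pool.Agent.X312.FC (corrRank rankBound)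

variable {k : Type u} [Field k] {𝒱 : VarClass k} {ops : CycleOps 𝒱}
  {W : WeilCohomology.{u, v} ops} {X Y Z : 𝒱.Obj} {C : ChowData W} {S T : ChowModule C}

/-- Two stable families. -/
theorem prim_chow (hC : C.IsChow) (hT : T.IsFunctor) (X : 𝒱.Obj)
    (hX : ∀ n, C.NumNil (pw X n)) (hn : ∀ n, HomEqNum W (pw X n))
    {N' N : ∀ Z : 𝒱.Obj, Submodule W.K (T.M Z)}
    (hN' : ∀ (Z Z' : 𝒱.Obj) (a : C.A Z Z') (x : T.M Z), x ∈ N' Z → T.act a x ∈ N' Z')
    (hN : ∀ (Z Z' : 𝒱.Obj) (a : C.A Z Z') (x : T.M Z), x ∈ N Z → T.act a x ∈ N Z')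
    {m : ℕ} (e : C.A (pw X m) (pw X m)) (he : C.comp e e = e)
    (hirr : IrreducibleIn IsAlgClass (C.cl e)) :
    (∀ x ∈ N (pw X m), T.act e x ∈ N' (pw X m)) ∨
    ∀ n : ℕ, IndepMod (N (pw X n) : Set (T.M (pw X n))) (N' (pw X n))
      (rankBound (corrRank (C.cl e)) (finrank W.K (W.H X)) (cycRank ops (pw X n)) m n) := by
  rcases prim_pair (cat_lawful hC) (fn hT) X (fun n => cat_nil (hX n)) hn
    (N' := N') (N := N) hN' hN e he hirr with h | h
  · exact Or.inl h
  · exact Or.inr fun n => indepMod_conv (h n)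

lemma bot_st (hT : T.IsFunctor) (Z Z' : 𝒱.Obj) (a : C.A Z Z') (x : T.M Z)
    (hx : x ∈ (⊥ : Submodule W.K (T.M Z))) : T.act a x ∈ (⊥ : Submodule W.K (T.M Z')) := by
  rw [(Submodule.mem_bot W.K).1 hx]
  exact (Submodule.mem_bot W.K).2 (map_zero ((fn hT).map a))

/-- The vanishing law. -/
theorem prim_zero (hC : C.IsChow) (hT : T.IsFunctor) (X : 𝒱.Obj)
    (hX : ∀ n, C.NumNil (pw X n)) (hn : ∀ n, HomEqNum W (pw X n))
    {m : ℕ} (e : C.A (pw X m) (pw X m)) (he : C.comp e e = e)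
    (hirr : IrreducibleIn IsAlgClass (C.cl e)) :
    (∀ x : T.M (pw X m), T.act e x = 0) ∨
    ∀ n : ℕ, DimAtLeast W.K (T.M (pw X n))
      (rankBound (corrRank (C.cl e)) (finrank W.K (W.H X)) (cycRank ops (pw X n)) m n) := by
  rcases prim_chow hC hT X hX hn (N' := fun _ => ⊥) (N := fun _ => ⊤) (bot_st hT)
    (fun _ _ _ _ _ => Submodule.mem_top) e he hirr with h | h
  · exact Or.inl fun x => (Submodule.mem_bot W.K).1 (h x Submodule.mem_top)
  · right
    intro n
    obtain ⟨r, a, h1, h2, h3⟩ := h n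
    exact ⟨r, a, h1, LinearIndependent.of_comp (⊥ : Submodule W.K (T.M (pw X n))).mkQ h2⟩

/-- The kernel law. -/
theorem prim_ker {c : ∀ Z : 𝒱.Obj, S.M Z → T.M Z} (hC : C.IsChow) (hS : S.IsFunctor)
    (hT : T.IsFunctor) (hc : IsRegulator S T c) (X : 𝒱.Obj)
    (hX : ∀ n, C.NumNil (pw X n)) (hn : ∀ n, HomEqNum W (pw X n))
    {m : ℕ} (e : C.A (pw X m) (pw X m)) (he : C.comp e e = e)
    (hirr : IrreducibleIn IsAlgClass (C.cl e)) :
    (∀ x : S.M (pw X m), c _ x = 0 → S.act e x = 0) ∨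
    ∀ n : ℕ, IndepMod {x : S.M (pw X n) | c _ x = 0} (⊥ : Submodule W.K (S.M (pw X n)))
      (rankBound (corrRank (C.cl e)) (finrank W.K (W.H X)) (cycRank ops (pw X n)) m n) := by
  rcases prim_chow hC hS X hX hn (N' := fun _ => ⊥)
    (N := fun Z => LinearMap.ker ((reg hS hT hc).c Z)) (bot_st hS)
    (Pool.Agent.X312.FN.ker_stable (reg hS hT hc)) e he hirr with h | h
  · exact Or.inl fun x hx => (Submodule.mem_bot W.K).1 (h x hx)
  · exact Or.inr h

/-- The law for orthogonal idempotents. -/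
theorem prim_idem {ι : Type} {p : ι → ∀ Z : 𝒱.Obj, T.M Z → T.M Z} (hC : C.IsChow)
    (hT : T.IsFunctor) [Finite ι] (hp : T.IsOrthogonal p)
    (X : 𝒱.Obj) (hX : ∀ n, C.NumNil (pw X n)) (hn : ∀ n, HomEqNum W (pw X n))
    {m : ℕ} (e : C.A (pw X m) (pw X m)) (he : C.comp e e = e)
    (hirr : IrreducibleIn IsAlgClass (C.cl e)) (n : ℕ) :
    DimAtLeast W.K (T.M (pw X n)) (Set.ncard {i : ι | ∃ x : T.M (pw X m), T.act e (p i _ x) ≠ 0} *
      rankBound (corrRank (C.cl e)) (finrank W.K (W.H X)) (cycRank ops (pw X n)) m n) := by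
  classical
  have hfin : Fintype ι := Fintype.ofFinite ι
  set g := rankBound (corrRank (C.cl e)) (finrank W.K (W.H X)) (cycRank ops (pw X n)) m n with hg
  have key : ∀ i : ι, ∃ (r : ℕ) (a : Fin r → T.M (pw X n)),
      ((∃ x : T.M (pw X m), T.act e (p i _ x) ≠ 0) → g ≤ r) ∧ LinearIndependent W.K a ∧
      ∀ j, p i _ (a j) = a j := by
    intro i
    by_cases h0 : ∃ x : T.M (pw X m), T.act e (p i _ x) ≠ 0
    · rcases prim_chow hC hT X hX hn (N' := fun _ => ⊥) (N := imE hp i) (bot_st hT)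
        (by
          rintro Z Z' a _ ⟨x, rfl⟩
          exact ⟨T.act a x, ((hp.nat i).comm a x).symm⟩) e he hirr with h | h
      · obtain ⟨x, hx⟩ := h0
        exact absurd ((Submodule.mem_bot W.K).1 (h _ ⟨x, rfl⟩)) hx
      · obtain ⟨r, a, h1, h2, h3⟩ := h n
        refine ⟨r, a, fun _ => h1, ?_, ?_⟩
        · exact LinearIndependent.of_comp (⊥ : Submodule W.K (T.M (pw X n))).mkQ h2
        · intro j
          obtain ⟨x, hx⟩ := h3 j
          rw [← hx]
          exact hp.idem i _ x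
    · exact ⟨0, Fin.elim0, fun h => absurd h h0, linearIndependent_empty_type, fun j => j.elim0⟩
  choose r a hr ha ha' using key
  have hlin := indep_sigma (fun i => frobL (hp.nat i) (pw X n)) (fun i x => hp.idem i _ x)
    (fun i j x hij => hp.orth i j _ x hij) a ha ha'
  refine ⟨Fintype.card (Σ i, Fin (r i)), fun j => a _ ((Fintype.equivFin _).symm j).2, ?_, ?_⟩
  · rw [Fintype.card_sigma]
    have h1 : Set.ncard {i : ι | ∃ x : T.M (pw X m), T.act e (p i _ x) ≠ 0} =
        (Finset.univ.filter (fun i : ι => ∃ x : T.M (pw X m), T.act e (p i _ x) ≠ 0)).card := by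
      rw [← Set.ncard_coe_finset]
      congr 1
      ext i
      simp
    rw [h1]
    simp only [Fintype.card_fin]
    have h2 : ((Finset.univ.filter
        (fun i : ι => ∃ x : T.M (pw X m), T.act e (p i _ x) ≠ 0)).card : ℝ) * g ≤
        ∑ i ∈ Finset.univ.filter
          (fun i : ι => ∃ x : T.M (pw X m), T.act e (p i _ x) ≠ 0), (r i : ℝ) := by
      rw [← nsmul_eq_mul]
      exact Finset.card_nsmul_le_sum _ _ _ fun i hi => hr i (Finset.mem_filter.1 hi).2
    refine h2.trans ?_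
    push_cast
    exact Finset.sum_le_sum_of_subset_of_nonneg (Finset.filter_subset _ _)
      (fun i _ _ => Nat.cast_nonneg _)
  · exact hlin.comp _ (Fintype.equivFin _).symm.injective

end Pool.Agent.X312.FK
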