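import Pool.Agent.X312.FK.RkDefs
import Pool.Agent.X312.FK.PrimChow

/-!
# Functors on Chow motives: irreducible motives of rank at least `D`
-/

open CategoryTheory AlgebraicGeometry

universe u v

namespace Pool.Agent.X312.FK

open Module
open Pool.Agent.H914 Pool.Agent.H914.VarClass Pool.Agent.H914.VarClass.Obj
  Pool.Agent.H914.WeilCohomology Pool.Agent.Y133.Half Pool.Agent.Y133.Half.Sys
  Pool.Agent.H281R3.HT Pool.Agent.W536.RR
open Pool.Agent.X312.FC (corrRank rankBound)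

variable {k : Type u} [Field k] {𝒱 : VarClass k} {ops : CycleOps 𝒱}
  {W : WeilCohomology.{u, v} ops} {X Y Z : 𝒱.Obj} {C : ChowData W} {S T : ChowModule C}

lemma rank_le {g : W.H (Z.prod Z)} {D : ℕ} (h : RankGE g D) : D ≤ corrRank g := by
  obtain ⟨x, hx⟩ := h
  rw [corrRank]
  have h1 : LinearIndependent W.K (fun i => (⟨W.corr g (x i), x i, rfl⟩ :
      LinearMap.range (W.corr g))) := by
    refine LinearIndependent.of_comp (Submodule.subtype _) ?_
    exact hx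
  have h2 := h1.fintype_card_le_finrank
  rwa [Fintype.card_fin] at h2

lemma bound_mono {D D' : ℕ} (h : D ≤ D') (b ρ m n : ℕ) :
    rankBound D b ρ m n ≤ rankBound D' b ρ m n := by
  unfold rankBound
  have h1 : (D : ℝ) ≤ D' := by exact_mod_cast h
  exact mul_le_mul_of_nonneg_right (by linarith) (Nat.cast_nonneg _)

/-- Two stable families. -/
theorem rk_pair (hC : C.IsChow) (hT : T.IsFunctor) (X : 𝒱.Obj)
    (hX : ∀ n, C.NumNil (pw X n)) (hn : ∀ n, HomEqNum W (pw X n))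
    {N' N : ∀ Z : 𝒱.Obj, Submodule W.K (T.M Z)} (hN' : IsStableIn T N') (hN : IsStableIn T N)
    {m : ℕ} (e : C.A (pw X m) (pw X m)) (he : C.comp e e = e)
    (hirr : IrreducibleIn IsAlgClass (C.cl e)) {D : ℕ} (hD : RankGE (C.cl e) D) :
    (∀ x ∈ N (pw X m), T.act e x ∈ N' (pw X m)) ∨
    ∀ n : ℕ, IndepMod (N (pw X n) : Set (T.M (pw X n))) (N' (pw X n))
      (rankBound D (finrank W.K (W.H X)) (cycRank ops (pw X n)) m n) := by
  rcases prim_chow hC hT X hX hn hN' hN e he hirr with h | h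
  · exact Or.inl h
  · right
    intro n
    obtain ⟨r, a, h1, h2, h3⟩ := h n
    exact ⟨r, a, (bound_mono (rank_le hD) _ _ _ _).trans h1, h2, h3⟩

/-- The vanishing law. -/
theorem rk_zero (hC : C.IsChow) (hT : T.IsFunctor) (X : 𝒱.Obj)
    (hX : ∀ n, C.NumNil (pw X n)) (hn : ∀ n, HomEqNum W (pw X n))
    {m : ℕ} (e : C.A (pw X m) (pw X m)) (he : C.comp e e = e)
    (hirr : IrreducibleIn IsAlgClass (C.cl e)) {D : ℕ} (hD : RankGE (C.cl e) D) :
    (∀ x : T.M (pw X m), T.act e x = 0) ∨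
    ∀ n : ℕ, DimAtLeast W.K (T.M (pw X n))
      (rankBound D (finrank W.K (W.H X)) (cycRank ops (pw X n)) m n) := by
  rcases prim_zero hC hT X hX hn e he hirr with h | h
  · exact Or.inl h
  · right
    intro n
    obtain ⟨r, a, h1, h2⟩ := h n
    exact ⟨r, a, (bound_mono (rank_le hD) _ _ _ _).trans h1, h2⟩

/-- The kernel law. -/
theorem rk_ker {c : ∀ Z : 𝒱.Obj, S.M Z → T.M Z} (hC : C.IsChow) (hS : S.IsFunctor)
    (hT : T.IsFunctor) (hc : IsRegulator S T c) (X : 𝒱.Obj)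
    (hX : ∀ n, C.NumNil (pw X n)) (hn : ∀ n, HomEqNum W (pw X n))
    {m : ℕ} (e : C.A (pw X m) (pw X m)) (he : C.comp e e = e)
    (hirr : IrreducibleIn IsAlgClass (C.cl e)) {D : ℕ} (hD : RankGE (C.cl e) D) :
    (∀ x : S.M (pw X m), c _ x = 0 → S.act e x = 0) ∨
    ∀ n : ℕ, IndepMod {x : S.M (pw X n) | c _ x = 0} (⊥ : Submodule W.K (S.M (pw X n)))
      (rankBound D (finrank W.K (W.H X)) (cycRank ops (pw X n)) m n) := by
  rcases prim_ker hC hS hT hc X hX hn e he hirr with h | h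
  · exact Or.inl h
  · right
    intro n
    obtain ⟨r, a, h1, h2, h3⟩ := h n
    exact ⟨r, a, (bound_mono (rank_le hD) _ _ _ _).trans h1, h2, h3⟩

/-- The law for orthogonal idempotents. -/
theorem rk_idem {ι : Type} {p : ι → ∀ Z : 𝒱.Obj, T.M Z → T.M Z} (hC : C.IsChow)
    (hT : T.IsFunctor) [Finite ι] (hp : T.IsOrthogonal p)
    (X : 𝒱.Obj) (hX : ∀ n, C.NumNil (pw X n)) (hn : ∀ n, HomEqNum W (pw X n))
    {m : ℕ} (e : C.A (pw X m) (pw X m)) (he : C.comp e e = e)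
    (hirr : IrreducibleIn IsAlgClass (C.cl e)) {D : ℕ} (hD : RankGE (C.cl e) D) (n : ℕ) :
    DimAtLeast W.K (T.M (pw X n)) (Set.ncard {i : ι | ∃ x : T.M (pw X m), T.act e (p i _ x) ≠ 0} *
      rankBound D (finrank W.K (W.H X)) (cycRank ops (pw X n)) m n) := by
  obtain ⟨r, a, h1, h2⟩ := prim_idem hC hT hp X hX hn e he hirr n
  exact ⟨r, a, (mul_le_mul_of_nonneg_left (bound_mono (rank_le hD) _ _ _ _)
    (Nat.cast_nonneg _)).trans h1, h2⟩

end Pool.Agent.X312.FK
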