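import Pool.Agent.X312.FK.Hom
import Pool.Agent.X312.FK.ActDefs

/-!
# Tate classes: the gap law
-/

open CategoryTheory AlgebraicGeometry

universe u v w

namespace Pool.Agent.X312.FK

open Module Polynomial
open Pool.Agent.H914 Pool.Agent.H914.VarClass Pool.Agent.H914.VarClass.Obj
  Pool.Agent.H914.WeilCohomology Pool.Agent.Y133.Half Pool.Agent.Y133.Half.Sys
  Pool.Agent.H281R3.HT

variable {k : Type u} [Field k] {𝒱 : VarClass k} {ops : CycleOps 𝒱}
  {W : WeilCohomology.{u, v} ops} {T : HomData W} {G : Type v} [Group G]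
  {ρ : ∀ Z : 𝒱.Obj, G → T.M Z → T.M Z} (r : T.IsAction ρ)

/-- The Tate classes. -/
def tateS (Z : 𝒱.Obj) : Submodule W.K (T.M Z) where
  carrier := {x | TateClass (ρ Z) x}
  zero_mem' := ⟨⊤, inferInstance, fun g _ => by
    have h := r.smul Z g 0 0
    rwa [zero_smul, zero_smul] at h⟩
  add_mem' := by
    rintro a b ⟨U, hU, ha⟩ ⟨V, hV, hb⟩
    exact ⟨U ⊓ V, inferInstance, fun g hg => by rw [r.add, ha g hg.1, hb g hg.2]⟩
  smul_mem' := by
    rintro t a ⟨U, hU, ha⟩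
    exact ⟨U, hU, fun g hg => by rw [r.smul, ha g hg]⟩

lemma tateS_stable : T.IsStable (tateS r) := by
  rintro X Y c hc x ⟨U, hU, hx⟩
  obtain ⟨V, hV, hc⟩ := r.comm c hc
  refine ⟨U ⊓ V, inferInstance, fun g hg => ?_⟩
  rw [← hc g hg.2, hx g hg.1]

include r in
/-- The gap law for Tate classes. -/
theorem tate_law (hT : T.IsFunctor) (X : 𝒱.Obj)
    (hn : ∀ n, HomEqNum W (pw X n)) {N : ∀ Z : 𝒱.Obj, Submodule W.K (T.M Z)}
    (hN : T.IsStable N) (m : ℕ) :
    (∀ x : T.M (pw X m), TateClass (ρ _) x → x ∈ N (pw X m)) ∨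
    ∀ n : ℕ, IndepMod {x : T.M (pw X n) | TateClass (ρ _) x} (N (pw X n))
      (gapBound (finrank W.K (W.H X)) (cycRank ops (pw X n)) m n) := by
  rcases hom_law hT X hn hN (tateS_stable r) m with h | h
  · exact Or.inl fun x hx => h hx
  · exact Or.inr h

end Pool.Agent.X312.FK
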