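import Pool.Agent.X312.FK.ChowDefs

/-!
# Galois actions on functors on Chow motives: definitions
-/

open CategoryTheory AlgebraicGeometry

universe u v

namespace Pool.Agent.X312.FK

open Pool.Agent.H914 Pool.Agent.H914.VarClass Pool.Agent.H914.VarClass.Obj
  Pool.Agent.H914.WeilCohomology

variable {k : Type u} [Field k] {𝒱 : VarClass k} {ops : CycleOps 𝒱}
  {W : WeilCohomology.{u, v} ops} {C : ChowData W}

/-- The maps `ρ g : M Z → M Z`, `g ∈ G`, are linear, and each correspondence commutes with the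
elements of a subgroup of finite index (for example the Galois group of a field of definition of the
correspondence). -/
structure ChowModule.IsAction (T : ChowModule C) {G : Type v} [Group G]
    (ρ : ∀ Z : 𝒱.Obj, G → T.M Z → T.M Z) : Prop where
  add : ∀ (Z : 𝒱.Obj) (g : G) (x y : T.M Z), ρ Z g (x + y) = ρ Z g x + ρ Z g y
  smul : ∀ (Z : 𝒱.Obj) (g : G) (t : W.K) (x : T.M Z), ρ Z g (t • x) = t • ρ Z g x
  comm : ∀ {Z Z' : 𝒱.Obj} (a : C.A Z Z'), ∃ U : Subgroup G,
    U.FiniteIndex ∧ ∀ g ∈ U, ∀ x : T.M Z, T.act a (ρ Z g x) = ρ Z' g (T.act a x)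

end Pool.Agent.X312.FK
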