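import Mathlib

/-!
# Tate classes
-/

universe v

namespace Pool.Agent.X312.FK

/-- The element `x` is fixed by the elements of a subgroup of finite index of `G`. -/
def IsTate {G : Type v} [Group G] {M : Type v} (ρ : G → M → M) (x : M) : Prop :=
  ∃ U : Subgroup G, U.FiniteIndex ∧ ∀ g ∈ U, ρ g x = x

end Pool.Agent.X312.FK
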