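import Pool.Agent.X312.FK.Chow
import Pool.Agent.X312.FK.ChowActDefs
import Pool.Agent.X312.FK.TateDefs

/-!
# Galois actions on functors on Chow motives: gap laws
-/

open CategoryTheory AlgebraicGeometry

universe u v

namespace Pool.Agent.X312.FK

open Module
open Pool.Agent.H914 Pool.Agent.H914.VarClass Pool.Agent.H914.VarClass.Obj
  Pool.Agent.H914.WeilCohomology Pool.Agent.Y133.Half Pool.Agent.Y133.Half.Sys
  Pool.Agent.H281R3.HT

variable {k : Type u} [Field k] {𝒱 : VarClass k} {ops : CycleOps 𝒱}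
  {W : WeilCohomology.{u, v} ops} {C : ChowData W} {S T : ChowModule C} {G : Type v} [Group G]
  {ρ : ∀ Z : 𝒱.Obj, G → T.M Z → T.M Z} (r : T.IsAction ρ)

/-- The Tate classes. -/
def tateC (Z : 𝒱.Obj) : Submodule W.K (T.M Z) where
  carrier := {x | IsTate (ρ Z) x}
  zero_mem' := ⟨⊤, inferInstance, fun g _ => by
    have h := r.smul Z g 0 0
    rwa [zero_smul, zero_smul] at h⟩
  add_mem' := by
    rintro a b ⟨U, hU, ha⟩ ⟨V, hV, hb⟩
    exact ⟨U ⊓ V, inferInstance, fun g hg => by rw [r.add, ha g hg.1, hb g hg.2]⟩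
  smul_mem' := by
    rintro t a ⟨U, hU, ha⟩
    exact ⟨U, hU, fun g hg => by rw [r.smul, ha g hg]⟩

lemma tateC_stable (X Y : 𝒱.Obj) (a : C.A X Y) (x : T.M X) (hx : x ∈ tateC r X) :
    T.act a x ∈ tateC r Y := by
  obtain ⟨U, hU, hx⟩ := hx
  obtain ⟨V, hV, hc⟩ := r.comm a
  refine ⟨U ⊓ V, inferInstance, fun g hg => ?_⟩
  rw [← hc g hg.2, hx g hg.1]

include r in
/-- Kernel and cokernel of a regulator. -/
theorem iso_chow (hC : C.IsChow) (hS : S.IsFunctor) (hT : T.IsFunctor)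
    {c : ∀ Z : 𝒱.Obj, S.M Z → T.M Z} (hc : IsRegulator S T c)
    (X : 𝒱.Obj) (hX : ∀ n, C.NumNil (pw X n)) (hn : ∀ n, HomEqNum W (pw X n)) (m : ℕ) :
    ((∀ x : S.M (pw X m), c _ x = 0 → x = 0) ∨
    ∀ n : ℕ, IndepMod {x : S.M (pw X n) | c _ x = 0} (⊥ : Submodule W.K (S.M (pw X n)))
      (gapBound (finrank W.K (W.H X)) (cycRank ops (pw X n)) m n)) ∧
    ((∀ y : T.M (pw X m), IsTate (ρ _) y → ∃ x, c _ x = y) ∨
    ∀ n : ℕ, IndepMod {y : T.M (pw X n) | IsTate (ρ _) y}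
      (Submodule.span W.K (Set.range (c (pw X n))))
      (gapBound (finrank W.K (W.H X)) (cycRank ops (pw X n)) m n)) := by
  refine ⟨kernel_chow hC hS hT hc X hX hn m, ?_⟩
  rcases coker_chow hC hS hT hc X hX hn (tateC_stable r) m with h | h
  · exact Or.inl fun y hy => h y hy
  · exact Or.inr h

end Pool.Agent.X312.FK
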