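import Pool.Agent.H914R2.CorrDefs

/-!
# Composition of cohomological correspondences
-/

open CategoryTheory AlgebraicGeometry

universe u v

namespace Pool.Agent.X312.FK

open Pool.Agent.H914 Pool.Agent.H914.VarClass Pool.Agent.H914.VarClass.Obj
  Pool.Agent.H914.WeilCohomology

variable {k : Type u} [Field k] {𝒱 : VarClass k} {ops : CycleOps 𝒱}

/-- The pull-back `f^* b`. -/
noncomputable def pb (W : WeilCohomology.{u, v} ops) {X Y : 𝒱.Obj} (f : X ⟶ Y) (b : W.H Y) :
    W.H X := W.map f b

/-- The push-forward `f_* a`. -/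
noncomputable def pf (W : WeilCohomology.{u, v} ops) {X Y : 𝒱.Obj} (f : X ⟶ Y) (a : W.H X) :
    W.H Y := W.push f a

/-- The cup product. -/
def cup (W : WeilCohomology.{u, v} ops) {X : 𝒱.Obj} (a b : W.H X) : W.H X := a * b

/-- The unit class. -/
def unitClass (W : WeilCohomology.{u, v} ops) (X : 𝒱.Obj) : W.H X := 1

/-- The composition of cohomological correspondences: first `a`, then `b`. -/
noncomputable def composite (W : WeilCohomology.{u, v} ops) {X Y Z : 𝒱.Obj}
    (a : W.H (X.prod Y)) (b : W.H (Y.prod Z)) : W.H (X.prod Z) :=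
  pf W (p13 X Y Z) (cup W (pb W (p12 X Y Z) a) (pb W (p23 X Y Z) b))

/-- The class of the diagonal. -/
noncomputable def diagClass (W : WeilCohomology.{u, v} ops) (X : 𝒱.Obj) : W.H (X.prod X) :=
  pf W (diag X) (unitClass W X)

end Pool.Agent.X312.FK
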