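import Pool.Agent.X312.FK.Len

/-!
# Equality of stable families: gap law
-/

open CategoryTheory AlgebraicGeometry

universe u v

namespace Pool.Agent.X312.FK

open Module
open Pool.Agent.H914 Pool.Agent.H914.VarClass Pool.Agent.H914.VarClass.Obj
  Pool.Agent.H914.WeilCohomology Pool.Agent.Y133.Half Pool.Agent.Y133.Half.Sys
  Pool.Agent.H281R3.HT

variable {k : Type u} [Field k] {𝒱 : VarClass k} {ops : CycleOps 𝒱}
  {W : WeilCohomology.{u, v} ops} {T : HomData W}

/-- **The law for the equality of the families `B i`.** -/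
theorem ind_law (hT : T.IsFunctor) {ι : Type v} {B : ι → ∀ Z : 𝒱.Obj, Submodule W.K (T.M Z)}
    (hB : ∀ i, T.IsStable (B i)) (X : 𝒱.Obj) (hn : ∀ n, HomEqNum W (pw X n)) (m : ℕ) :
    (∀ i j, B i (pw X m) = B j (pw X m)) ∨
    ∀ n : ℕ, finrank W.K (⨅ i, B i (pw X n) : Submodule W.K (T.M (pw X n))) +
      gapBound (finrank W.K (W.H X)) (cycRank ops (pw X n)) m n ≤
        finrank W.K (⨆ i, B i (pw X n) : Submodule W.K (T.M (pw X n))) := by
  by_cases hι : IsEmpty ι
  · exact Or.inl fun i => (hι.false i).elim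
  rw [not_isEmpty_iff] at hι
  obtain ⟨i₀⟩ := hι
  have h1 : T.IsStable (fun Z => ⨅ i, B i Z) := by
    intro Z Z' c hc x hx
    rw [Submodule.mem_iInf] at hx ⊢
    exact fun i => hB i Z Z' c hc x (hx i)
  have h2 : T.IsStable (fun Z => ⨆ i, B i Z) := by
    intro Z Z' c hc x hx
    have h3 : (⨆ i, B i Z) ≤ (⨆ i, B i Z').comap (actL hT c) := by
      refine iSup_le fun i x hx => ?_
      exact Submodule.mem_iSup_of_mem i (hB i Z Z' c hc x hx)
    exact h3 hx
  by_cases h : (⨅ i, B i (pw X m)) = ⨆ i, B i (pw X m)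
  · left
    have h4 : ∀ i, B i (pw X m) = ⨆ i, B i (pw X m) := fun i =>
      le_antisymm (le_iSup (fun i => B i (pw X m)) i)
        (h.ge.trans (iInf_le (fun i => B i (pw X m)) i))
    intro i j
    rw [h4 i, h4 j]
  · right
    intro n
    exact step hT X hn h1 h2 (fun Z => (iInf_le (fun i => B i Z) i₀).trans
      (le_iSup (fun i => B i Z) i₀)) m h n

end Pool.Agent.X312.FK
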