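import Pool.Agent.X312.FK.FibDefs
import Pool.Agent.X312.FK.Rk

/-!
# Cycles on regular models: the gap law for extensions
-/

open CategoryTheory AlgebraicGeometry

universe u v

namespace Pool.Agent.X312.FK

open Module
open Pool.Agent.H914 Pool.Agent.H914.VarClass Pool.Agent.H914.VarClass.Obj
  Pool.Agent.H914.WeilCohomology Pool.Agent.Y133.Half
open Pool.Agent.X312.FC (rankBound)

variable {k : Type u} [Field k] {𝒱 : VarClass k} {ops : CycleOps 𝒱}
  {W : WeilCohomology.{u, v} ops} {C : ChowData W} {T : ChowModule C}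

/-- The combinations of the cycles which extend. -/
def extSub (D : FibreData T) (Z : 𝒱.Obj) : Submodule W.K (T.M Z) :=
  Submodule.span W.K {x | D.HasExtension x}

lemma extSub_stable (hT : T.IsFunctor) (D : FibreData T) (hD : D.HasCorrespondences) :
    IsStableIn T (extSub D) := by
  intro Z Z' a x hx
  refine Submodule.span_induction (p := fun x _ => T.act a x ∈ extSub D Z') ?_ ?_ ?_ ?_ hx
  · intro x hx
    exact Submodule.subset_span (hD Z Z' a x hx)
  · have h1 : T.act a (0 : T.M Z) = 0 := map_zero ((fn hT).map a)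
    rw [h1]; exact Submodule.zero_mem _
  · intro x y _ _ hx hy
    rw [hT.act_add]; exact Submodule.add_mem _ hx hy
  · intro t x _ hx
    rw [hT.act_smul]; exact Submodule.smul_mem _ _ hx

/-- **The gap law for extensions.** -/
theorem ext_law (hC : C.IsChow) (hT : T.IsFunctor) (D : FibreData T)
    (hD : D.HasCorrespondences) (X : 𝒱.Obj)
    (hX : ∀ n, C.NumNil (pw X n)) (hn : ∀ n, HomEqNum W (pw X n))
    {m : ℕ} (e : C.A (pw X m) (pw X m)) (he : C.comp e e = e)
    (hirr : IrreducibleIn IsAlgClass (C.cl e)) {r : ℕ} (hr : RankGE (C.cl e) r) :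
    (∀ x : T.M (pw X m), T.act e x ∈ Submodule.span W.K {y | D.HasExtension y}) ∨
    ∀ n : ℕ, IndepMod (Set.univ : Set (T.M (pw X n))) (Submodule.span W.K {y | D.HasExtension y})
      (rankBound r (finrank W.K (W.H X)) (cycRank ops (pw X n)) m n) := by
  rcases rk_pair hC hT X hX hn (N' := extSub D) (N := fun _ => ⊤) (extSub_stable hT D hD)
    (fun _ _ _ _ _ => Submodule.mem_top) e he hirr hr with h | h
  · exact Or.inl fun x => h x Submodule.mem_top
  · right
    intro n
    exact h n

end Pool.Agent.X312.FK
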