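import Pool.Agent.X312.FK.ChowDefs

/-!
# Cycles on regular models: definitions
-/

open CategoryTheory AlgebraicGeometry

universe u v

namespace Pool.Agent.X312.FK

open Pool.Agent.H914 Pool.Agent.H914.VarClass

variable {k : Type u} [Field k] {𝒱 : VarClass k} {ops : CycleOps 𝒱}
  {W : WeilCohomology.{u, v} ops} {C : ChowData W}

/-- Data of cycles on regular models. -/
structure FibreData (T : ChowModule C) where
  /-- the cycles on the model of `Z` -/
  S : 𝒱.Obj → Type v
  /-- the restriction to the generic fibre -/
  res : ∀ Z : 𝒱.Obj, S Z → T.M Z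
  /-- the cycle is homologically trivial on all closed fibres -/
  fib : ∀ Z : 𝒱.Obj, S Z → Prop

/-- The cycle `x` extends to a cycle on the model which is homologically trivial on all closed
fibres. -/
def FibreData.HasExtension {T : ChowModule C} (D : FibreData T) {Z : 𝒱.Obj} (x : T.M Z) : Prop :=
  ∃ s : D.S Z, D.fib Z s ∧ D.res Z s = x

/-- If `x` extends in this way then so does `a x`, for each correspondence `a`. -/
def FibreData.HasCorrespondences {T : ChowModule C} (D : FibreData T) : Prop :=
  ∀ (Z Z' : 𝒱.Obj) (a : C.A Z Z') (x : T.M Z), D.HasExtension x → D.HasExtension (T.act a x)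

end Pool.Agent.X312.FK
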