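import Pool.Agent.X312.FK.ChowDefs

/-!
# Frobenius operators on functors on Chow motives: definitions
-/

open CategoryTheory AlgebraicGeometry

universe u v

namespace Pool.Agent.X312.FK

open Pool.Agent.H914 Pool.Agent.H914.VarClass Pool.Agent.H914.VarClass.Obj
  Pool.Agent.H914.WeilCohomology

variable {k : Type u} [Field k] {𝒱 : VarClass k} {ops : CycleOps 𝒱}
  {W : WeilCohomology.{u, v} ops} {C : ChowData W}

/-- The maps `f Z : M Z → M Z` are linear and commute with the correspondences. -/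
structure ChowModule.IsFrobenius (T : ChowModule C) (f : ∀ Z : 𝒱.Obj, T.M Z → T.M Z) : Prop where
  add : ∀ (Z : 𝒱.Obj) (x y : T.M Z), f Z (x + y) = f Z x + f Z y
  smul : ∀ (Z : 𝒱.Obj) (t : W.K) (x : T.M Z), f Z (t • x) = t • f Z x
  comm : ∀ {Z Z' : 𝒱.Obj} (a : C.A Z Z') (x : T.M Z), T.act a (f Z x) = f Z' (T.act a x)

end Pool.Agent.X312.FK
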