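import Pool.Agent.X312.FK.Chow
import Pool.Agent.X312.FK.FrobDefs

/-!
# Frobenius operators on functors on Chow motives: gap laws
-/

open CategoryTheory AlgebraicGeometry

universe u v

namespace Pool.Agent.X312.FK

open Module
open Pool.Agent.H914 Pool.Agent.H914.VarClass Pool.Agent.H914.VarClass.Obj
  Pool.Agent.H914.WeilCohomology Pool.Agent.Y133.Half Pool.Agent.Y133.Half.Sys
  Pool.Agent.H281R3.HT

variable {k : Type u} [Field k] {𝒱 : VarClass k} {ops : CycleOps 𝒱}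
  {W : WeilCohomology.{u, v} ops} {C : ChowData W} {S T : ChowModule C}
  {f : ∀ Z : 𝒱.Obj, T.M Z → T.M Z} (hr : T.IsFrobenius f)

/-- The operator as a linear map. -/
def frobL (Z : 𝒱.Obj) : T.M Z →ₗ[W.K] T.M Z where
  toFun := f Z
  map_add' := hr.add Z
  map_smul' t x := hr.smul Z t x

include hr in
lemma frob_sub (Z : 𝒱.Obj) (x y : T.M Z) : f Z (x - y) = f Z x - f Z y :=
  map_sub (frobL hr Z) x y

/-- The fixed elements. -/
def fixC (Z : 𝒱.Obj) : Submodule W.K (T.M Z) where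
  carrier := {x | f Z x = x}
  zero_mem' := map_zero (frobL hr Z)
  add_mem' {a b} (ha : f Z a = a) (hb : f Z b = b) := by
    change f Z (a + b) = a + b
    rw [hr.add, ha, hb]
  smul_mem' t a (ha : f Z a = a) := by
    change f Z (t • a) = t • a
    rw [hr.smul, ha]

/-- The fixed elements in the image of `f - 1`. -/
def jorC (Z : 𝒱.Obj) : Submodule W.K (T.M Z) where
  carrier := {x | f Z x = x ∧ ∃ y, f Z y - y = x}
  zero_mem' := ⟨map_zero (frobL hr Z), 0, by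
    rw [show f Z 0 = 0 from map_zero (frobL hr Z), sub_zero]⟩
  add_mem' := by
    rintro a b ⟨ha, y, hy⟩ ⟨hb, z, hz⟩
    refine ⟨by rw [hr.add, ha, hb], y + z, ?_⟩
    rw [hr.add, ← hy, ← hz]
    abel
  smul_mem' := by
    rintro t a ⟨ha, y, hy⟩
    refine ⟨by rw [hr.smul, ha], t • y, ?_⟩
    rw [hr.smul, ← hy, smul_sub]

lemma fixC_stable (X Y : 𝒱.Obj) (a : C.A X Y) (x : T.M X) (hx : x ∈ fixC hr X) :
    T.act a x ∈ fixC hr Y := by
  change f Y (T.act a x) = T.act a x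
  rw [← hr.comm, show f X x = x from hx]

lemma jorC_stable (hT : T.IsFunctor) (X Y : 𝒱.Obj) (a : C.A X Y) (x : T.M X)
    (hx : x ∈ jorC hr X) : T.act a x ∈ jorC hr Y := by
  obtain ⟨hx, y, hy⟩ := hx
  refine ⟨by rw [← hr.comm, hx], T.act a y, ?_⟩
  rw [← hr.comm, ← hy]
  exact (map_sub ((fn hT).map a) (f X y) y).symm

lemma cbot_stable (hT : T.IsFunctor) (X Y : 𝒱.Obj) (a : C.A X Y) (x : T.M X)
    (hx : x ∈ (⊥ : Submodule W.K (T.M X))) : T.act a x ∈ (⊥ : Submodule W.K (T.M Y)) := by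
  rw [(Submodule.mem_bot W.K).1 hx, Submodule.mem_bot]
  exact map_zero ((fn hT).map a)

include hr in
/-- The three parts of the conjecture of Tate and Beilinson. -/
theorem tb_chow (hC : C.IsChow) (hS : S.IsFunctor) (hT : T.IsFunctor)
    {c : ∀ Z : 𝒱.Obj, S.M Z → T.M Z} (hc : IsRegulator S T c)
    (X : 𝒱.Obj) (hX : ∀ n, C.NumNil (pw X n)) (hn : ∀ n, HomEqNum W (pw X n)) (m : ℕ) :
    ((∀ x : S.M (pw X m), c _ x = 0 → x = 0) ∨
    ∀ n : ℕ, IndepMod {x : S.M (pw X n) | c _ x = 0} (⊥ : Submodule W.K (S.M (pw X n)))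
      (gapBound (finrank W.K (W.H X)) (cycRank ops (pw X n)) m n)) ∧
    ((∀ y : T.M (pw X m), f _ y = y → ∃ x, c _ x = y) ∨
    ∀ n : ℕ, IndepMod {y : T.M (pw X n) | f _ y = y}
      (Submodule.span W.K (Set.range (c (pw X n))))
      (gapBound (finrank W.K (W.H X)) (cycRank ops (pw X n)) m n)) ∧
    ((∀ y : T.M (pw X m), f _ (f _ y - y) = f _ y - y → f _ y = y) ∨
    ∀ n : ℕ, IndepMod {y : T.M (pw X n) | f _ y = y ∧ ∃ z, f _ z - z = y}
      (⊥ : Submodule W.K (T.M (pw X n)))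
      (gapBound (finrank W.K (W.H X)) (cycRank ops (pw X n)) m n)) := by
  refine ⟨kernel_chow hC hS hT hc X hX hn m, ?_, ?_⟩
  · rcases coker_chow hC hS hT hc X hX hn (fixC_stable hr) m with h | h
    · exact Or.inl fun y hy => h y hy
    · exact Or.inr h
  · rcases chow_law hC hT X hX hn (N' := fun _ => ⊥) (cbot_stable hT) (jorC_stable hr hT) m
      with h | h
    · left
      intro y hy
      exact sub_eq_zero.1 ((Submodule.mem_bot W.K).1 (h ⟨hy, y, rfl⟩))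
    · exact Or.inr h

/-- Kernel and cokernel in a given stable family. -/
theorem sel_chow (hC : C.IsChow) (hS : S.IsFunctor) (hT : T.IsFunctor)
    {c : ∀ Z : 𝒱.Obj, S.M Z → T.M Z} (hc : IsRegulator S T c)
    {N : ∀ Z : 𝒱.Obj, Submodule W.K (T.M Z)}
    (hN : ∀ (Z Z' : 𝒱.Obj) (a : C.A Z Z') (x : T.M Z), x ∈ N Z → T.act a x ∈ N Z')
    (X : 𝒱.Obj) (hX : ∀ n, C.NumNil (pw X n)) (hn : ∀ n, HomEqNum W (pw X n)) (m : ℕ) :
    ((∀ x : S.M (pw X m), c _ x = 0 → x = 0) ∨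
    ∀ n : ℕ, IndepMod {x : S.M (pw X n) | c _ x = 0} (⊥ : Submodule W.K (S.M (pw X n)))
      (gapBound (finrank W.K (W.H X)) (cycRank ops (pw X n)) m n)) ∧
    ((∀ y ∈ N (pw X m), ∃ x, c _ x = y) ∨
    ∀ n : ℕ, IndepMod (N (pw X n) : Set (T.M (pw X n)))
      (Submodule.span W.K (Set.range (c (pw X n))))
      (gapBound (finrank W.K (W.H X)) (cycRank ops (pw X n)) m n)) :=
  ⟨kernel_chow hC hS hT hc X hX hn m, coker_chow hC hS hT hc X hX hn hN m⟩

end Pool.Agent.X312.FK
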