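import Pool.Agent.H281R3.HT.Defs
import Pool.Agent.X312.FK.CompDefs

/-!
# Functors on homological motives: definitions
-/

open CategoryTheory AlgebraicGeometry

universe u v

namespace Pool.Agent.X312.FK

open Pool.Agent.H914 Pool.Agent.H914.VarClass Pool.Agent.H914.VarClass.Obj
  Pool.Agent.H914.WeilCohomology Pool.Agent.H281R3.HT

variable {k : Type u} [Field k] {𝒱 : VarClass k} {ops : CycleOps 𝒱}

/-- Data of a functor on homological motives: a finite-dimensional vector space `M X` over the field
`K` of coefficients of the cohomology for each variety `X`, and for each class `c` of cohomological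
correspondences from `X` to `Y` a map `act c : M X → M Y` (only the values for algebraic classes `c`,
that is for `K`-linear combinations of classes of cycles, play a role). -/
structure HomData (W : WeilCohomology.{u, v} ops) where
  /-- the vector space attached to `X` -/
  M : 𝒱.Obj → Type v
  [grp : ∀ X, AddCommGroup (M X)]
  [mod : ∀ X, Module W.K (M X)]
  [fin : ∀ X, FiniteDimensional W.K (M X)]
  /-- the action of correspondences -/
  act : ∀ {X Y : 𝒱.Obj}, W.H (X.prod Y) → M X → M Y

attribute [instance] HomData.grp HomData.mod HomData.fin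

variable {W : WeilCohomology.{u, v} ops}

/-- The cohomology class `c` is algebraic: a linear combination, with coefficients in the field `K` of
coefficients of the cohomology, of classes of algebraic cycles. -/
def IsAlgClass {X : 𝒱.Obj} (c : W.H X) : Prop := c ∈ algSpan W X

/-- The maps `act c` are linear, and linear in `c`. -/
structure HomData.IsLinear (T : HomData W) : Prop where
  act_add : ∀ {X Y : 𝒱.Obj} (c : W.H (X.prod Y)) (x y : T.M X),
    T.act c (x + y) = T.act c x + T.act c y
  act_smul : ∀ {X Y : 𝒱.Obj} (c : W.H (X.prod Y)) (t : W.K) (x : T.M X),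
    T.act c (t • x) = t • T.act c x
  add_act : ∀ {X Y : 𝒱.Obj} (c d : W.H (X.prod Y)) (x : T.M X),
    T.act (c + d) x = T.act c x + T.act d x
  smul_act : ∀ {X Y : 𝒱.Obj} (t : W.K) (c : W.H (X.prod Y)) (x : T.M X),
    T.act (t • c) x = t • T.act c x

/-- The maps `act c` are linear, and linear in `c`, and compatible with the composition of algebraic
correspondences. -/
structure HomData.IsFunctor (T : HomData W) : Prop extends T.IsLinear where
  diag_act : ∀ (X : 𝒱.Obj) (x : T.M X), T.act (diagClass W X) x = x
  comp_act : ∀ {X Y Z : 𝒱.Obj} (c : W.H (X.prod Y)) (d : W.H (Y.prod Z)), IsAlgClass c →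
    IsAlgClass d → ∀ x : T.M X, T.act (composite W c d) x = T.act d (T.act c x)

/-- The family of subspaces `N X` of `M X` is stable under algebraic correspondences. -/
def HomData.IsStable (T : HomData W) (N : ∀ X : 𝒱.Obj, Submodule W.K (T.M X)) : Prop :=
  ∀ (X Y : 𝒱.Obj) (c : W.H (X.prod Y)), IsAlgClass c → ∀ x : T.M X, x ∈ N X → T.act c x ∈ N Y

end Pool.Agent.X312.FK
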