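import Pool.Agent.X312.FK.HomDefs

/-!
# Sequences of classes which do not come from one another
-/

open CategoryTheory AlgebraicGeometry

universe u v

namespace Pool.Agent.X312.FK

open Pool.Agent.H914 Pool.Agent.H914.VarClass Pool.Agent.H914.VarClass.Obj
  Pool.Agent.H914.WeilCohomology

variable {k : Type u} [Field k] {𝒱 : VarClass k} {ops : CycleOps 𝒱}
  {W : WeilCohomology.{u, v} ops}

/-- None of the elements `z 0, z 1, …` of `M P` is the sum of an element of `A P` and of images of
the preceding ones under algebraic self-correspondences of `P`. -/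
def HomData.IsNew (T : HomData W) (A : ∀ Z : 𝒱.Obj, Submodule W.K (T.M Z)) {P : 𝒱.Obj} {s : ℕ}
    (z : Fin s → T.M P) : Prop :=
  ∀ (i : Fin s) (c : Fin s → W.H (P.prod P)), (∀ j, IsAlgClass (c j)) →
    z i - ∑ j with j < i, T.act (c j) (z j) ∉ A P

/-- The dimension of the subspace `A Z` of `M Z`. -/
noncomputable def HomData.rank (T : HomData W) (A : ∀ Z : 𝒱.Obj, Submodule W.K (T.M Z))
    (Z : 𝒱.Obj) : ℕ := Module.finrank W.K (A Z)

end Pool.Agent.X312.FK
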