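import Pool.Agent.X312.FK.Act
import Pool.Agent.X312.FK.LenDefs

/-!
# Chains of stable families and sequences of classes: gap laws
-/

open CategoryTheory AlgebraicGeometry

universe u v w

namespace Pool.Agent.X312.FK

open Module
open Pool.Agent.H914 Pool.Agent.H914.VarClass Pool.Agent.H914.VarClass.Obj
  Pool.Agent.H914.WeilCohomology Pool.Agent.Y133.Half Pool.Agent.Y133.Half.Sys
  Pool.Agent.H281R3.HT Pool.Agent.W536.RR Pool.Agent.X312.RL

variable {k : Type u} [Field k] {𝒱 : VarClass k} {ops : CycleOps 𝒱}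
  {W : WeilCohomology.{u, v} ops} {T : HomData W}

/-- Composites of algebraic classes are algebraic. -/
lemma comp_alg {X Y Z : 𝒱.Obj} {c : W.H (X.prod Y)} {d : W.H (Y.prod Z)} (hc : IsAlgClass c)
    (hd : IsAlgClass d) : IsAlgClass (composite W c d) := by
  have h5 : W.corr (composite W c d) = W.corr d ∘ₗ W.corr c := by
    rw [composite, pf, cup, pb, pb]
    exact corr_comp' _ ((algSys W).even hd)
  have h6 : W.corr d ∘ₗ W.corr c ∈ (algSys W).Op X Z :=
    Op.comp (mem_Op.2 ⟨d, hd, rfl⟩) (mem_Op.2 ⟨c, hc, rfl⟩)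
  obtain ⟨e, he, he'⟩ := mem_Op.1 h6
  have h7 : e = composite W c d := corrL_injective X Z (he'.trans h5.symm)
  rw [← h7]
  exact he

lemma diag_alg (Z : 𝒱.Obj) : IsAlgClass (diagClass W Z) := by
  have h1 : (LinearMap.id : W.H Z →ₗ[W.K] W.H Z) ∈ (algSys W).Op Z Z := Op.id
  obtain ⟨c, hc, hc'⟩ := mem_Op.1 h1
  have h2 : W.corr (diagClass W Z) = LinearMap.id := by
    rw [diagClass, pf, unitClass, corr_diag_one]
  have h3 : c = diagClass W Z := corrL_injective Z Z (hc'.trans h2.symm)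
  rw [← h3]
  exact hc

/-- The images of `z` under algebraic correspondences. -/
def cyc (hT : T.IsFunctor) {P : 𝒱.Obj} (z : T.M P) (Z : 𝒱.Obj) : Submodule W.K (T.M Z) where
  carrier := {x | ∃ c : W.H (P.prod Z), IsAlgClass c ∧ x = T.act c z}
  zero_mem' := ⟨0, Submodule.zero_mem _, (zero_act hT z).symm⟩
  add_mem' := by
    rintro _ _ ⟨c, hc, rfl⟩ ⟨d, hd, rfl⟩
    exact ⟨c + d, Submodule.add_mem _ hc hd, (hT.add_act c d z).symm⟩
  smul_mem' := by
    rintro t _ ⟨c, hc, rfl⟩
    exact ⟨t • c, Submodule.smul_mem _ t hc, (hT.smul_act t c z).symm⟩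

lemma cyc_stable (hT : T.IsFunctor) {P : 𝒱.Obj} (z : T.M P) : T.IsStable (cyc hT z) := by
  rintro X Y c hc _ ⟨d, hd, rfl⟩
  exact ⟨composite W d c, comp_alg hd hc, (hT.comp_act d c hd hc z).symm⟩

lemma mem_cyc_self (hT : T.IsFunctor) {P : 𝒱.Obj} (z : T.M P) : z ∈ cyc hT z P :=
  ⟨diagClass W P, diag_alg P, (hT.diag_act P z).symm⟩

/-- The family generated by `A` and the first `i` elements of `z`. -/
def chainF (hT : T.IsFunctor) (A : ∀ Z : 𝒱.Obj, Submodule W.K (T.M Z)) {P : 𝒱.Obj} {s : ℕ}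
    (z : Fin s → T.M P) (i : ℕ) (Z : 𝒱.Obj) : Submodule W.K (T.M Z) :=
  A Z ⊔ ⨆ j : {j : Fin s // (j : ℕ) < i}, cyc hT (z j) Z

lemma act_iSup (hT : T.IsFunctor) {ι : Type} {N : ι → ∀ Z : 𝒱.Obj, Submodule W.K (T.M Z)}
    (hN : ∀ i, T.IsStable (N i)) : T.IsStable (fun Z => ⨆ i, N i Z) := by
  intro X Y c hc x hx
  have h1 : (⨆ i, N i X) ≤ (⨆ i, N i Y).comap (actL hT c) := by
    refine iSup_le fun i x hx => ?_
    exact Submodule.mem_iSup_of_mem i (hN i X Y c hc x hx)
  exact h1 hx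

lemma act_sup (hT : T.IsFunctor) {N N' : ∀ Z : 𝒱.Obj, Submodule W.K (T.M Z)}
    (hN : T.IsStable N) (hN' : T.IsStable N') : T.IsStable (fun Z => N Z ⊔ N' Z) := by
  intro X Y c hc x hx
  have h1 : N X ⊔ N' X ≤ (N Y ⊔ N' Y).comap (actL hT c) := by
    refine sup_le (fun x hx => ?_) (fun x hx => ?_)
    · exact (le_sup_left : N Y ≤ N Y ⊔ N' Y) (hN X Y c hc x hx)
    · exact (le_sup_right : N' Y ≤ N Y ⊔ N' Y) (hN' X Y c hc x hx)
  exact h1 hx

lemma chainF_stable (hT : T.IsFunctor) {A : ∀ Z : 𝒱.Obj, Submodule W.K (T.M Z)}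
    (hA : T.IsStable A) {P : 𝒱.Obj} {s : ℕ} (z : Fin s → T.M P) (i : ℕ) :
    T.IsStable (chainF hT A z i) :=
  act_sup hT hA (act_iSup hT (fun _ => cyc_stable hT _))

lemma chainF_mono (hT : T.IsFunctor) (A : ∀ Z : 𝒱.Obj, Submodule W.K (T.M Z)) {P : 𝒱.Obj}
    {s : ℕ} (z : Fin s → T.M P) (i : ℕ) (Z : 𝒱.Obj) :
    chainF hT A z i Z ≤ chainF hT A z (i + 1) Z := by
  refine sup_le le_sup_left ((iSup_le fun j => ?_).trans le_sup_right)
  exact le_iSup (fun j : {j : Fin s // (j : ℕ) < i + 1} => cyc hT (z j) Z)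
    ⟨j.1, j.2.trans (Nat.lt_succ_self i)⟩

/-- Elements of the chain. -/
lemma mem_chainF (hT : T.IsFunctor) {A : ∀ Z : 𝒱.Obj, Submodule W.K (T.M Z)} {P : 𝒱.Obj}
    {s : ℕ} (z : Fin s → T.M P) (i : Fin s) {x : T.M P} (hx : x ∈ chainF hT A z i P) :
    ∃ c : Fin s → W.H (P.prod P), (∀ j, IsAlgClass (c j)) ∧
      x - ∑ j with j < i, T.act (c j) (z j) ∈ A P := by
  obtain ⟨a, ha, b, hb, rfl⟩ := Submodule.mem_sup.1 hx
  have key : ∃ c : Fin s → W.H (P.prod P), (∀ j, IsAlgClass (c j)) ∧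
      b = ∑ j with j < i, T.act (c j) (z j) := by
    refine Submodule.iSup_induction (fun j : {j : Fin s // (j : ℕ) < (i : ℕ)} => cyc hT (z j) P)
      (motive := fun b => ∃ c : Fin s → W.H (P.prod P), (∀ j, IsAlgClass (c j)) ∧
        b = ∑ j with j < i, T.act (c j) (z j)) hb ?_ ?_ ?_
    · rintro ⟨j, hj⟩ _ ⟨c, hc, rfl⟩
      refine ⟨fun l => if l = j then c else 0, fun l => ?_, ?_⟩
      · by_cases h : l = j
        · simp only [if_pos h]; exact hc
        · simp only [if_neg h]; exact Submodule.zero_mem _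
      · rw [Finset.sum_eq_single j]
        · change _ = T.act (if j = j then c else 0) (z j)
          rw [if_pos rfl]
        · intro l _ hl
          change T.act (if l = j then c else 0) (z l) = 0
          rw [if_neg hl]
          exact zero_act hT _
        · intro h
          have h' : j ∈ Finset.filter (fun j => j < i) Finset.univ :=
            Finset.mem_filter.2 ⟨Finset.mem_univ j, Fin.lt_def.2 hj⟩
          exact absurd h' h
    · exact ⟨fun _ => 0, fun _ => Submodule.zero_mem _, by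
        rw [Finset.sum_eq_zero fun j _ => zero_act hT _]⟩
    · rintro _ _ ⟨c, hc, rfl⟩ ⟨d, hd, rfl⟩
      refine ⟨fun l => c l + d l, fun l => Submodule.add_mem _ (hc l) (hd l), ?_⟩
      rw [← Finset.sum_add_distrib]
      exact Finset.sum_congr rfl fun l _ => (hT.add_act _ _ _).symm
  obtain ⟨c, hc, rfl⟩ := key
  exact ⟨c, hc, by rwa [add_sub_cancel_right]⟩

/-- One step: the dimension grows. -/
lemma step (hT : T.IsFunctor) (X : 𝒱.Obj) (hn : ∀ n, HomEqNum W (pw X n))
    {N' N : ∀ Z : 𝒱.Obj, Submodule W.K (T.M Z)} (hN' : T.IsStable N') (hN : T.IsStable N)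
    (hle : ∀ Z, N' Z ≤ N Z) (m : ℕ) (hne : N' (pw X m) ≠ N (pw X m)) (n : ℕ) :
    finrank W.K (N' (pw X n)) +
      gapBound (finrank W.K (W.H X)) (cycRank ops (pw X n)) m n ≤ finrank W.K (N (pw X n)) := by
  rcases hom_law hT X hn hN' hN m with h | h
  · exact absurd (le_antisymm (hle _) h) hne
  obtain ⟨r, a, h1, h2, h3⟩ := h n
  let q : N (pw X n) →ₗ[W.K] T.M (pw X n) ⧸ N' (pw X n) :=
    (N' (pw X n)).mkQ ∘ₗ Submodule.subtype _
  have h5 := q.finrank_range_add_finrank_ker
  have h6 : finrank W.K (LinearMap.ker q) = finrank W.K (N' (pw X n)) := by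
    have h7 : (LinearMap.ker q).map (Submodule.subtype _) = N' (pw X n) := by
      ext x
      constructor
      · rintro ⟨y, hy, rfl⟩
        exact (Submodule.Quotient.mk_eq_zero _).1 (LinearMap.mem_ker.1 hy)
      · intro hx
        exact ⟨⟨x, hle _ hx⟩, LinearMap.mem_ker.2 ((Submodule.Quotient.mk_eq_zero _).2 hx), rfl⟩
    conv_rhs => rw [← h7]
    exact (Submodule.equivMapOfInjective _ (Submodule.injective_subtype _) _).finrank_eq
  have h8 : r ≤ finrank W.K (LinearMap.range q) := by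
    have h9 : ∀ i, (N' (pw X n)).mkQ (a i) ∈ LinearMap.range q := fun i =>
      ⟨⟨a i, h3 i⟩, rfl⟩
    have h10 : LinearIndependent W.K (fun i => (⟨(N' (pw X n)).mkQ (a i), h9 i⟩ :
        LinearMap.range q)) := by
      refine LinearIndependent.of_comp (Submodule.subtype _) ?_
      exact h2
    have := h10.fintype_card_le_finrank
    rwa [Fintype.card_fin] at this
  have h9 : finrank W.K (N' (pw X n)) + r ≤ finrank W.K (N (pw X n)) := by omega
  have h10 : (finrank W.K (N' (pw X n)) : ℝ) + r ≤ finrank W.K (N (pw X n)) := by exact_mod_cast h9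
  linarith

/-- **The chain law.** -/
theorem chain_law (hT : T.IsFunctor) (X : 𝒱.Obj) (hn : ∀ n, HomEqNum W (pw X n))
    {A : ℕ → ∀ Z : 𝒱.Obj, Submodule W.K (T.M Z)} (hA : ∀ i, T.IsStable (A i))
    (hle : ∀ i Z, A i Z ≤ A (i + 1) Z) (m s n : ℕ) :
    finrank W.K (A 0 (pw X n)) +
      Set.ncard {i | i < s ∧ A i (pw X m) ≠ A (i + 1) (pw X m)} *
        gapBound (finrank W.K (W.H X)) (cycRank ops (pw X n)) m n ≤
      finrank W.K (A s (pw X n)) := by
  classical
  have hcard : ∀ s, Set.ncard {i | i < s ∧ A i (pw X m) ≠ A (i + 1) (pw X m)} =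
      ((Finset.range s).filter (fun i => A i (pw X m) ≠ A (i + 1) (pw X m))).card := by
    intro s
    rw [← Set.ncard_coe_finset]
    congr 1
    ext i
    simp
  rw [hcard]
  induction s with
  | zero => simp
  | succ s ih =>
    rw [Finset.range_add_one, Finset.filter_insert]
    by_cases h : A s (pw X m) ≠ A (s + 1) (pw X m)
    · rw [if_pos h, Finset.card_insert_of_notMem (by simp)]
      have h1 := step hT X hn (hA s) (hA (s + 1)) (hle s) m h n
      push_cast
      linarith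
    · rw [if_neg h]
      have h1 : finrank W.K (A s (pw X n)) ≤ finrank W.K (A (s + 1) (pw X n)) :=
        Submodule.finrank_mono (hle s _)
      have h2 : (finrank W.K (A s (pw X n)) : ℝ) ≤ finrank W.K (A (s + 1) (pw X n)) := by
        exact_mod_cast h1
      linarith

/-- **The law for sequences of classes.** -/
theorem new_law (hT : T.IsFunctor) (X : 𝒱.Obj) (hn : ∀ n, HomEqNum W (pw X n))
    {A N : ∀ Z : 𝒱.Obj, Submodule W.K (T.M Z)} (hA : T.IsStable A) (hN : T.IsStable N) (m s : ℕ)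
    (z : Fin s → T.M (pw X m)) (hz : T.IsNew A z) (hzN : ∀ i, z i ∈ N (pw X m)) (n : ℕ) :
    IndepMod (N (pw X n) : Set (T.M (pw X n))) (A (pw X n))
      (s * gapBound (finrank W.K (W.H X)) (cycRank ops (pw X n)) m n) := by
  have hst := fun i => chainF_stable hT hA z i
  have h1 := chain_law hT X hn hst (chainF_mono hT A z) m s n
  have h2 : Set.ncard {i | i < s ∧ chainF hT A z i (pw X m) ≠ chainF hT A z (i + 1) (pw X m)} =
      s := by
    have h3 : {i | i < s ∧ chainF hT A z i (pw X m) ≠ chainF hT A z (i + 1) (pw X m)} =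
        ((Finset.range s : Finset ℕ) : Set ℕ) := by
      ext i
      simp only [Set.mem_ofPred_eq, Finset.coe_range, Set.mem_Iio, and_iff_left_iff_imp]
      intro hi h
      have h4 : z ⟨i, hi⟩ ∈ chainF hT A z (i + 1) (pw X m) := by
        refine (le_sup_right : _ ≤ chainF hT A z (i + 1) (pw X m)) ?_
        exact Submodule.mem_iSup_of_mem (p := fun j : {j : Fin s // (j : ℕ) < i + 1} =>
          cyc hT (z j) (pw X m)) ⟨⟨i, hi⟩, Nat.lt_succ_self i⟩ (mem_cyc_self hT _)
      rw [← h] at h4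
      obtain ⟨c, hc, h5⟩ := mem_chainF hT z ⟨i, hi⟩ h4
      exact hz ⟨i, hi⟩ c hc h5
    rw [h3, Set.ncard_coe_finset, Finset.card_range]
  rw [h2] at h1
  have h3 : chainF hT A z 0 (pw X n) = A (pw X n) := by
    have h4 : IsEmpty {j : Fin s // (j : ℕ) < 0} := ⟨fun j => absurd j.2 (Nat.not_lt_zero _)⟩
    rw [chainF, iSup_of_empty, sup_bot_eq]
  rw [h3] at h1
  have h4 : chainF hT A z s (pw X n) ≤ A (pw X n) ⊔ N (pw X n) := by
    refine sup_le le_sup_left ((iSup_le fun j => ?_).trans le_sup_right)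
    rintro _ ⟨c, hc, rfl⟩
    exact hN _ _ c hc _ (hzN _)
  have h5 : (finrank W.K (A (pw X n)) : ℝ) + (s * gapBound (finrank W.K (W.H X))
      (cycRank ops (pw X n)) m n) ≤ finrank W.K (A (pw X n) ⊔ N (pw X n) :
        Submodule W.K (T.M (pw X n))) := by
    have h6 : (finrank W.K (chainF hT A z s (pw X n)) : ℝ) ≤ finrank W.K
        (A (pw X n) ⊔ N (pw X n) : Submodule W.K (T.M (pw X n))) := by
      exact_mod_cast Submodule.finrank_mono h4
    linarith
  have key : s * gapBound (finrank W.K (W.H X)) (cycRank ops (pw X n)) m n ≤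
      finrank W.K ((N (pw X n)).map (A (pw X n)).mkQ) := by
    let q : (A (pw X n) ⊔ N (pw X n) : Submodule W.K (T.M (pw X n))) →ₗ[W.K]
        T.M (pw X n) ⧸ A (pw X n) := (A (pw X n)).mkQ ∘ₗ Submodule.subtype _
    have h7 := q.finrank_range_add_finrank_ker
    have h8 : finrank W.K (LinearMap.ker q) = finrank W.K (A (pw X n)) := by
      have h9 : (LinearMap.ker q).map (Submodule.subtype _) = A (pw X n) := by
        ext x
        constructor
        · rintro ⟨y, hy, rfl⟩
          exact (Submodule.Quotient.mk_eq_zero _).1 (LinearMap.mem_ker.1 hy)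
        · intro hx
          exact ⟨⟨x, (le_sup_left : A (pw X n) ≤ _) hx⟩,
            LinearMap.mem_ker.2 ((Submodule.Quotient.mk_eq_zero _).2 hx), rfl⟩
      conv_rhs => rw [← h9]
      exact (Submodule.equivMapOfInjective _ (Submodule.injective_subtype _) _).finrank_eq
    have h9 : LinearMap.range q = (N (pw X n)).map (A (pw X n)).mkQ := by
      apply le_antisymm
      · rintro _ ⟨⟨x, hx⟩, rfl⟩
        obtain ⟨a, ha, b, hb, rfl⟩ := Submodule.mem_sup.1 hx
        refine ⟨b, hb, ?_⟩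
        change (A (pw X n)).mkQ b = (A (pw X n)).mkQ (a + b)
        rw [map_add, show (A (pw X n)).mkQ a = 0 from (Submodule.Quotient.mk_eq_zero _).2 ha,
          zero_add]
      · rintro _ ⟨b, hb, rfl⟩
        exact ⟨⟨b, (le_sup_right : N (pw X n) ≤ _) hb⟩, rfl⟩
    rw [h8, h9] at h7
    have h10 : (finrank W.K ((N (pw X n)).map (A (pw X n)).mkQ) : ℝ) +
        finrank W.K (A (pw X n)) = finrank W.K
          (A (pw X n) ⊔ N (pw X n) : Submodule W.K (T.M (pw X n))) := by exact_mod_cast h7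
    linarith
  obtain ⟨r, a, h6, h7, h8⟩ := Pool.Agent.X312.FN.indep_of (A (pw X n)) (N (pw X n))
    (fun _ => key)
  rw [Submodule.span_eq] at h7
  exact ⟨r, a, h6, h7, h8⟩

end Pool.Agent.X312.FK
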