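import Pool.Agent.X312.FK.ChowDefs
import Pool.Agent.X312.FK.IndDefs

/-!
# Cycles on models and their pairing with fibral cycles
-/

open CategoryTheory AlgebraicGeometry

universe u v

namespace Pool.Agent.X312.FK

open Pool.Agent.H914 Pool.Agent.H914.VarClass Pool.Agent.H914.VarClass.Obj
  Pool.Agent.H914.WeilCohomology

variable {k : Type u} [Field k] {𝒱 : VarClass k} {ops : CycleOps 𝒱}
  {W : WeilCohomology.{u, v} ops} {C : ChowData W}

/-- Data of cycles on models: for every variety `Z` a space `S Z` of cycles on a model of `Z`, a set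
`V Z` of fibral cycles, the restriction of cycles to the generic fibre, and a pairing with values
in `R`. -/
structure ModelData (T : ChowModule C) (R : Type v) where
  /-- cycles on the model -/
  S : 𝒱.Obj → Type v
  [grp : ∀ Z, AddCommGroup (S Z)]
  [mod : ∀ Z, Module W.K (S Z)]
  /-- fibral cycles on the model -/
  V : 𝒱.Obj → Type v
  /-- the restriction to the generic fibre -/
  res : ∀ Z : 𝒱.Obj, S Z → T.M Z
  /-- the pairing -/
  pair : ∀ Z : 𝒱.Obj, S Z → V Z → R

attribute [instance] ModelData.grp ModelData.mod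

/-- The restriction and the pairing are linear in the cycles on the model. -/
structure ModelData.IsLinear {T : ChowModule C} {R : Type v} [AddCommGroup R] [Module W.K R]
    (D : ModelData T R) : Prop where
  res_add : ∀ (Z : 𝒱.Obj) (s t : D.S Z), D.res Z (s + t) = D.res Z s + D.res Z t
  res_smul : ∀ (Z : 𝒱.Obj) (c : W.K) (s : D.S Z), D.res Z (c • s) = c • D.res Z s
  pair_add : ∀ (Z : 𝒱.Obj) (s t : D.S Z) (v : D.V Z), D.pair Z (s + t) v = D.pair Z s v + D.pair Z t v
  pair_smul : ∀ (Z : 𝒱.Obj) (c : W.K) (s : D.S Z) (v : D.V Z), D.pair Z (c • s) v = c • D.pair Z s v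

/-- Every correspondence from `Z` to `Z'` extends to the models, with a transpose for the fibral
cycles. -/
def ModelData.Extends {T : ChowModule C} {R : Type v} (D : ModelData T R) : Prop :=
  ∀ (Z Z' : 𝒱.Obj) (a : C.A Z Z'), ∃ (f : D.S Z → D.S Z') (g : D.V Z' → D.V Z),
    (∀ s, D.res Z' (f s) = T.act a (D.res Z s)) ∧ ∀ s v, D.pair Z' (f s) v = D.pair Z s (g v)

/-- The class `x` lifts to a cycle on the model which is orthogonal to all fibral cycles. -/
def ModelData.Lifts {T : ChowModule C} {R : Type v} [Zero R] (D : ModelData T R) {Z : 𝒱.Obj}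
    (x : T.M Z) : Prop :=
  ∃ s : D.S Z, D.res Z s = x ∧ ∀ v : D.V Z, D.pair Z s v = 0

end Pool.Agent.X312.FK
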