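import Pool.Agent.X312.FK.Chow
import Pool.Agent.X312.FK.LiftDefs

/-!
# Orthogonal lifts: gap law
-/

open CategoryTheory AlgebraicGeometry

universe u v

namespace Pool.Agent.X312.FK

open Module
open Pool.Agent.H914 Pool.Agent.H914.VarClass Pool.Agent.H914.VarClass.Obj
  Pool.Agent.H914.WeilCohomology Pool.Agent.Y133.Half Pool.Agent.Y133.Half.Sys
  Pool.Agent.H281R3.HT

variable {k : Type u} [Field k] {𝒱 : VarClass k} {ops : CycleOps 𝒱}
  {W : WeilCohomology.{u, v} ops} {C : ChowData W} {T : ChowModule C} {R : Type v}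
  [AddCommGroup R] [Module W.K R] {D : ModelData T R}

/-- The classes which lift. -/
def liftS (hD : D.IsLinear) (Z : 𝒱.Obj) : Submodule W.K (T.M Z) where
  carrier := {x | D.Lifts x}
  zero_mem' := by
    refine ⟨0, ?_, fun v => ?_⟩
    · have h := hD.res_smul Z 0 0
      rwa [zero_smul, zero_smul] at h
    · have h := hD.pair_smul Z 0 0 v
      rwa [zero_smul, zero_smul] at h
  add_mem' := by
    rintro a b ⟨s, hs, hs'⟩ ⟨t, ht, ht'⟩
    refine ⟨s + t, by rw [hD.res_add, hs, ht], fun v => ?_⟩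
    rw [hD.pair_add, hs' v, ht' v, add_zero]
  smul_mem' := by
    rintro c a ⟨s, hs, hs'⟩
    refine ⟨c • s, by rw [hD.res_smul, hs], fun v => ?_⟩
    rw [hD.pair_smul, hs' v, smul_zero]

/-- **The law for orthogonal lifts.** -/
theorem lift_law (hC : C.IsChow) (hT : T.IsFunctor) (hD : D.IsLinear) (hD' : D.Extends)
    (X : 𝒱.Obj) (hX : ∀ n, C.NumNil (pw X n)) (hn : ∀ n, HomEqNum W (pw X n)) (m : ℕ) :
    (∀ x : T.M (pw X m), D.Lifts x) ∨
    ∀ n : ℕ, IndepMod (Set.univ : Set (T.M (pw X n))) (Submodule.span W.K {x | D.Lifts x})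
      (gapBound (finrank W.K (W.H X)) (cycRank ops (pw X n)) m n) := by
  rcases chow_law hC hT X hX hn (N' := liftS hD) (N := fun _ => ⊤)
    (by
      rintro Z Z' a x ⟨s, rfl, hs⟩
      obtain ⟨f, g, hf, hg⟩ := hD' Z Z' a
      exact ⟨f s, hf s, fun v => by rw [hg, hs]⟩)
    (fun _ _ _ _ _ => trivial) m with h | h
  · exact Or.inl fun x => h (Submodule.mem_top (x := x))
  · right
    intro n
    have h1 : Submodule.span W.K {x | D.Lifts x} = liftS hD (pw X n) :=
      Submodule.span_eq (liftS hD (pw X n))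
    rw [h1]
    exact h n

end Pool.Agent.X312.FK
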