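import Pool.Agent.X312.FK.HomDefs

/-!
# Natural transformations: definitions
-/

open CategoryTheory AlgebraicGeometry

universe u v

namespace Pool.Agent.X312.FK

open Pool.Agent.H914 Pool.Agent.H914.VarClass Pool.Agent.H914.VarClass.Obj
  Pool.Agent.H914.WeilCohomology Pool.Agent.H281R3.HT

variable {k : Type u} [Field k] {𝒱 : VarClass k} {ops : CycleOps 𝒱}
  {W : WeilCohomology.{u, v} ops}

/-- The maps `c Z : S(Z) → T(Z)` are linear and commute with the algebraic correspondences. -/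
structure IsNatural (S T : HomData W) (c : ∀ Z : 𝒱.Obj, S.M Z → T.M Z) : Prop where
  add : ∀ (Z : 𝒱.Obj) (x y : S.M Z), c Z (x + y) = c Z x + c Z y
  smul : ∀ (Z : 𝒱.Obj) (t : W.K) (x : S.M Z), c Z (t • x) = t • c Z x
  nat : ∀ {Z Z' : 𝒱.Obj} (d : W.H (Z.prod Z')), IsAlgClass d → ∀ x : S.M Z,
    c Z' (S.act d x) = T.act d (c Z x)

end Pool.Agent.X312.FK
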