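import Pool.Agent.X312.FK.Act
import Pool.Agent.X312.FK.NatDefs

/-!
# Natural transformations: gap laws
-/

open CategoryTheory AlgebraicGeometry

universe u v w

namespace Pool.Agent.X312.FK

open Module Polynomial
open Pool.Agent.H914 Pool.Agent.H914.VarClass Pool.Agent.H914.VarClass.Obj
  Pool.Agent.H914.WeilCohomology Pool.Agent.Y133.Half Pool.Agent.Y133.Half.Sys
  Pool.Agent.H281R3.HT

variable {k : Type u} [Field k] {𝒱 : VarClass k} {ops : CycleOps 𝒱}
  {W : WeilCohomology.{u, v} ops} {S T : HomData W}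

lemma hbot_stable (hT : T.IsFunctor) : T.IsStable (fun _ => ⊥) := by
  intro X Y c _ x hx
  rw [(Submodule.mem_bot W.K).1 hx, Submodule.mem_bot]
  have h := hT.act_smul c 0 0
  rwa [zero_smul, zero_smul] at h

lemma indep_bot {M : Type v} [AddCommGroup M] [Module W.K M] (N : Submodule W.K M) {x : ℝ}
    (h : IndepMod (N : Set M) (⊥ : Submodule W.K M) x) : DimAtLeast W.K N x := by
  obtain ⟨r, a, h1, h2, h3⟩ := h
  refine ⟨r, fun i => ⟨a i, h3 i⟩, h1, ?_⟩
  rw [linearIndependent_iff'] at h2 ⊢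
  intro s g hg i hi
  refine h2 s g ?_ i hi
  have h4 := congrArg (Submodule.subtype N) hg
  rw [map_sum] at h4
  have h5 := congrArg (Submodule.mkQ (⊥ : Submodule W.K M)) h4
  rw [map_sum, map_zero, map_zero] at h5
  rw [← h5]
  refine Finset.sum_congr rfl fun j _ => ?_
  rw [map_smul, map_smul]
  rfl

/-- A stable family of subspaces which is not zero is large. -/
theorem sub_law (hT : T.IsFunctor) (X : 𝒱.Obj) (hn : ∀ n, HomEqNum W (pw X n))
    {N : ∀ Z : 𝒱.Obj, Submodule W.K (T.M Z)} (hN : T.IsStable N) (m : ℕ) :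
    (∀ x ∈ N (pw X m), x = 0) ∨
    ∀ n : ℕ, DimAtLeast W.K (N (pw X n))
      (gapBound (finrank W.K (W.H X)) (cycRank ops (pw X n)) m n) := by
  rcases hom_law hT X hn (hbot_stable hT) hN m with h | h
  · exact Or.inl fun x hx => (Submodule.mem_bot W.K).1 (h hx)
  · exact Or.inr fun n => indep_bot _ (h n)

variable {c : ∀ Z : 𝒱.Obj, S.M Z → T.M Z} (hc : IsNatural S T c)

/-- The kernel. -/
def kerS (Z : 𝒱.Obj) : Submodule W.K (S.M Z) where
  carrier := {x | c Z x = 0}
  zero_mem' := by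
    have h := hc.smul Z 0 0
    rwa [zero_smul, zero_smul] at h
  add_mem' {a b} (ha : c Z a = 0) (hb : c Z b = 0) := by
    change c Z (a + b) = 0
    rw [hc.add, ha, hb, add_zero]
  smul_mem' t a (ha : c Z a = 0) := by
    change c Z (t • a) = 0
    rw [hc.smul, ha, smul_zero]

lemma kerS_stable (hT : T.IsFunctor) : S.IsStable (kerS hc) := by
  intro X Y d hd x hx
  change c Y (S.act d x) = 0
  rw [hc.nat d hd, show c X x = 0 from hx]
  have h := hT.act_smul d 0 0
  rwa [zero_smul, zero_smul] at h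

/-- The image. -/
def imS (Z : 𝒱.Obj) : Submodule W.K (T.M Z) where
  carrier := Set.range (c Z)
  zero_mem' := by
    have h := hc.smul Z 0 0
    rw [zero_smul, zero_smul] at h
    exact ⟨0, h⟩
  add_mem' := by
    rintro _ _ ⟨a, rfl⟩ ⟨b, rfl⟩
    exact ⟨a + b, hc.add Z a b⟩
  smul_mem' := by
    rintro t _ ⟨a, rfl⟩
    exact ⟨t • a, hc.smul Z t a⟩

lemma imS_stable : T.IsStable (imS hc) := by
  rintro X Y d hd _ ⟨x, rfl⟩
  exact ⟨S.act d x, hc.nat d hd x⟩

include hc in
/-- The kernel is zero or large. -/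
theorem kernel_law (hS : S.IsFunctor) (hT : T.IsFunctor) (X : 𝒱.Obj)
    (hn : ∀ n, HomEqNum W (pw X n)) (m : ℕ) :
    (∀ x : S.M (pw X m), c _ x = 0 → x = 0) ∨
    ∀ n : ℕ, IndepMod {x : S.M (pw X n) | c _ x = 0} (⊥ : Submodule W.K (S.M (pw X n)))
      (gapBound (finrank W.K (W.H X)) (cycRank ops (pw X n)) m n) := by
  rcases hom_law hS X hn (hbot_stable hS) (kerS_stable hc hT) m with h | h
  · exact Or.inl fun x hx => (Submodule.mem_bot W.K).1 (h hx)
  · exact Or.inr h

include hc in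
/-- The cokernel in a stable family is zero or large. -/
theorem coker_law (hT : T.IsFunctor) (X : 𝒱.Obj) (hn : ∀ n, HomEqNum W (pw X n))
    {N : ∀ Z : 𝒱.Obj, Submodule W.K (T.M Z)} (hN : T.IsStable N) (m : ℕ) :
    (∀ y ∈ N (pw X m), ∃ x, c _ x = y) ∨
    ∀ n : ℕ, IndepMod (N (pw X n) : Set (T.M (pw X n)))
      (Submodule.span W.K (Set.range (c (pw X n))))
      (gapBound (finrank W.K (W.H X)) (cycRank ops (pw X n)) m n) := by
  rcases hom_law hT X hn (imS_stable hc) hN m with h | h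
  · exact Or.inl fun y hy => h hy
  · right
    intro n
    have h1 : Submodule.span W.K (Set.range (c (pw X n))) = imS hc (pw X n) := by
      change Submodule.span W.K (imS hc (pw X n) : Set (T.M (pw X n))) = _
      rw [Submodule.span_eq]
    rw [h1]
    exact h n

end Pool.Agent.X312.FK
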