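import Pool.Agent.X312.FK.HomDefs

/-!
# Frobenius operators on functors on homological motives: definitions
-/

open CategoryTheory AlgebraicGeometry

universe u v

namespace Pool.Agent.X312.FK

open Pool.Agent.H914 Pool.Agent.H914.VarClass Pool.Agent.H914.VarClass.Obj
  Pool.Agent.H914.WeilCohomology

variable {k : Type u} [Field k] {𝒱 : VarClass k} {ops : CycleOps 𝒱}
  {W : WeilCohomology.{u, v} ops}

/-- A linear operator `f Z` on `M Z` for each `Z` (in the intended use the Frobenius). -/
structure Operators (T : HomData W) where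
  f : ∀ Z : 𝒱.Obj, Module.End W.K (T.M Z)

/-- The value of the operator at `x`. -/
def Operators.ap {T : HomData W} (Φ : Operators T) {Z : 𝒱.Obj} (x : T.M Z) : T.M Z := Φ.f Z x

/-- The operators commute with the algebraic correspondences. -/
def Operators.Commutes {T : HomData W} (Φ : Operators T) : Prop :=
  ∀ (Z Z' : 𝒱.Obj) (c : W.H (Z.prod Z')), IsAlgClass c → ∀ x : T.M Z,
    T.act c (Φ.ap x) = Φ.ap (T.act c x)

/-- The eigenvalue one of the operator on `M Z` is semisimple. -/
def Operators.Semisimple {T : HomData W} (Φ : Operators T) (Z : 𝒱.Obj) : Prop :=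
  ∀ x : T.M Z, Φ.ap (Φ.ap x - x) = Φ.ap x - x → Φ.ap x = x

/-- The multiplicity of the eigenvalue one of the operator `f` on `M Z`: the order of vanishing at
`t = 1` of the polynomial `det (1 - f t)`. -/
noncomputable def Operators.order {T : HomData W} (Φ : Operators T) (Z : 𝒱.Obj) : ℕ :=
  (Φ.f Z).charpoly.rootMultiplicity 1

/-- The dimension of the subspace `A Z` of `M Z`. -/
noncomputable def HomData.dim (T : HomData W) (A : ∀ Z : 𝒱.Obj, Submodule W.K (T.M Z)) (Z : 𝒱.Obj) :
    ℕ := Module.finrank W.K (A Z)

end Pool.Agent.X312.FK
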