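import Pool.Agent.X312.FK.Hom
import Pool.Agent.X312.FK.OrdDefs

/-!
# Frobenius operators on functors on homological motives: gap laws
-/

open CategoryTheory AlgebraicGeometry

universe u v

namespace Pool.Agent.X312.FK

open Module
open Pool.Agent.H914 Pool.Agent.H914.VarClass Pool.Agent.H914.VarClass.Obj
  Pool.Agent.H914.WeilCohomology Pool.Agent.Y133.Half Pool.Agent.Y133.Half.Sys
  Pool.Agent.H281R3.HT

variable {k : Type u} [Field k] {𝒱 : VarClass k} {ops : CycleOps 𝒱}
  {W : WeilCohomology.{u, v} ops} {T : HomData W} {Φ : Operators T}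

lemma pow_comm (hf : Φ.Commutes) {Z Z' : 𝒱.Obj} {c : W.H (Z.prod Z')} (hc : IsAlgClass c)
    (hT : T.IsFunctor) (n : ℕ) (x : T.M Z) :
    T.act c (((Φ.f Z - 1) ^ n) x) = ((Φ.f Z' - 1) ^ n) (T.act c x) := by
  induction n generalizing x with
  | zero => rfl
  | succ n ih =>
    rw [pow_succ, pow_succ, Module.End.mul_apply, Module.End.mul_apply, ih]
    congr 1
    change T.act c (Φ.ap x - x) = Φ.ap (T.act c x) - T.act c x
    rw [← hf Z Z' c hc]
    exact map_sub (actL hT c) (Φ.ap x) x

lemma gen_mem_iff {M : Type v} [AddCommGroup M] [Module W.K M] (g : Module.End W.K M) (x : M) :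
    x ∈ g.maxGenEigenspace 1 ↔ ∃ n : ℕ, ((g - 1) ^ n) x = 0 := by
  rw [Module.End.mem_maxGenEigenspace, one_smul]

lemma gen_stable (hf : Φ.Commutes) (hT : T.IsFunctor) :
    T.IsStable (fun Z => (Φ.f Z).maxGenEigenspace 1) := by
  intro X Y c hc x hx
  rw [gen_mem_iff] at hx ⊢
  obtain ⟨n, hn⟩ := hx
  refine ⟨n, ?_⟩
  rw [← pow_comm hf hc hT, hn]
  exact map_zero (actL hT c)

/-- **The order law.** -/
theorem order_law (hT : T.IsFunctor) (hf : Φ.Commutes) {A : ∀ Z : 𝒱.Obj, Submodule W.K (T.M Z)}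
    (hA : T.IsStable A) (hfix : ∀ (Z : 𝒱.Obj) (x : T.M Z), x ∈ A Z → Φ.ap x = x) (X : 𝒱.Obj)
    (hn : ∀ n, HomEqNum W (pw X n)) (m : ℕ) :
    ((∀ x : T.M (pw X m), Φ.ap x = x → x ∈ A (pw X m)) ∧ Φ.Semisimple (pw X m)) ∨
    ∀ n : ℕ, T.dim A (pw X n) +
      gapBound (finrank W.K (W.H X)) (cycRank ops (pw X n)) m n ≤ Φ.order (pw X n) := by
  rcases hom_law hT X hn hA (gen_stable hf hT) m with h | h
  · left
    refine ⟨fun x hx => h ?_, fun x hx => ?_⟩
    · rw [gen_mem_iff]
      exact ⟨1, by rw [pow_one]; change Φ.ap x - x = 0; rw [hx, sub_self]⟩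
    · refine hfix _ x (h ?_)
      rw [gen_mem_iff]
      refine ⟨2, ?_⟩
      rw [pow_two, Module.End.mul_apply]
      change Φ.ap (Φ.ap x - x) - (Φ.ap x - x) = 0
      rw [hx, sub_self]
  · right
    intro n
    obtain ⟨r, a, h1, h2, h3⟩ := h n
    have hle : A (pw X n) ≤ (Φ.f (pw X n)).maxGenEigenspace 1 := by
      intro x hx
      rw [gen_mem_iff]
      exact ⟨1, by rw [pow_one]; change Φ.ap x - x = 0; rw [hfix _ x hx, sub_self]⟩
    have h4 : finrank W.K (A (pw X n)) + r ≤
        finrank W.K ((Φ.f (pw X n)).maxGenEigenspace 1) := by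
      let q : (Φ.f (pw X n)).maxGenEigenspace 1 →ₗ[W.K] T.M (pw X n) ⧸ A (pw X n) :=
        (A (pw X n)).mkQ ∘ₗ Submodule.subtype _
      have h5 := q.finrank_range_add_finrank_ker
      have h6 : finrank W.K (LinearMap.ker q) = finrank W.K (A (pw X n)) := by
        have h7 : (LinearMap.ker q).map (Submodule.subtype _) = A (pw X n) := by
          ext x
          constructor
          · rintro ⟨y, hy, rfl⟩
            exact (Submodule.Quotient.mk_eq_zero _).1 (LinearMap.mem_ker.1 hy)
          · intro hx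
            exact ⟨⟨x, hle hx⟩, LinearMap.mem_ker.2 ((Submodule.Quotient.mk_eq_zero _).2 hx), rfl⟩
        conv_rhs => rw [← h7]
        exact (Submodule.equivMapOfInjective _ (Submodule.injective_subtype _) _).finrank_eq
      have h8 : r ≤ finrank W.K (LinearMap.range q) := by
        have h9 : ∀ i, (A (pw X n)).mkQ (a i) ∈ LinearMap.range q := fun i =>
          ⟨⟨a i, h3 i⟩, rfl⟩
        have h10 : LinearIndependent W.K (fun i => (⟨(A (pw X n)).mkQ (a i), h9 i⟩ :
            LinearMap.range q)) := by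
          refine LinearIndependent.of_comp (Submodule.subtype _) ?_
          exact h2
        have := h10.fintype_card_le_finrank
        rwa [Fintype.card_fin] at this
      omega
    have h5 : finrank W.K ((Φ.f (pw X n)).maxGenEigenspace 1) = Φ.order (pw X n) :=
      LinearMap.finrank_maxGenEigenspace_eq _ _
    have h6 : (finrank W.K (A (pw X n)) : ℝ) + r ≤ Φ.order (pw X n) := by
      rw [← h5]
      exact_mod_cast h4
    change (finrank W.K (A (pw X n)) : ℝ) + _ ≤ _
    linarith

end Pool.Agent.X312.FK
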