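import Pool.Agent.X312.FK.PrimDefs
import Pool.Agent.X312.FK.Chow
import Pool.Agent.X312.DR.Prim
import Pool.Agent.X312.FC.Rank

/-!
# Functors on Chow motives: irreducible motives
-/

open CategoryTheory AlgebraicGeometry

universe u v

namespace Pool.Agent.X312.FK

open Module
open Pool.Agent.H914 Pool.Agent.H914.VarClass Pool.Agent.H914.VarClass.Obj
  Pool.Agent.H914.WeilCohomology Pool.Agent.Y133.Half Pool.Agent.Y133.Half.Sys
  Pool.Agent.H281R3.HT Pool.Agent.W536.RR Pool.Agent.X312.RL Pool.Agent.X312.DR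
open Pool.Agent.X312.FN (CorrCat CorrFunctor Regulator fOps f_isMdl f_fine cl_alg' corr_comp'' indep_of)
open Pool.Agent.X312.FC (corrRank rankBound)

variable {k : Type u} [Field k] {𝒱 : VarClass k} {ops : CycleOps 𝒱}
  {W : WeilCohomology.{u, v} ops} {X Y Z : 𝒱.Obj}

lemma mem_alg_iff (h : W.H X) : IsAlgClass h ↔ h ∈ algSpan W X := Iff.rfl

variable {C : CorrCat W (RingHom.id W.K)}

lemma fn_surj (hC : C.IsLawful) (T : CorrFunctor C) (X Y : 𝒱.Obj) (b : W.H X →ₗ[W.K] W.H Y)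
    (hb : b ∈ (algSys W).Op X Y) : ∃ a, (a, b) ∈ fOps T X Y := by
  obtain ⟨c, hc, rfl⟩ := mem_Op.1 hb
  have h1 : c ∈ Pool.Agent.X312.FN.cycClasses W (RingHom.id W.K) (X.prod Y) :=
    (mem_cyc_iff c).1 hc
  obtain ⟨Δ, hΔ⟩ := (hC.range_cl X Y c).2 h1
  refine ⟨T.map Δ, Δ, rfl, ?_⟩
  rw [hΔ]

lemma prim_of (hC : C.IsLawful) {P : 𝒱.Obj} {e : C.A P P}
    (hirr : IrreducibleIn IsAlgClass (C.cl e)) : PrimOp (algSys W) (W.corr (C.cl e)) := by
  intro α hα hαα h1 h2
  obtain ⟨c, hc, rfl⟩ := mem_Op.1 hα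
  have hc' : c ∈ algSpan W (P.prod P) := hc
  have hce : ∀ a b : W.H (P.prod P), a ∈ (algSys W).C (P.prod P) → b ∈ (algSys W).C (P.prod P) →
      W.corr (composite W a b) = W.corr b ∘ₗ W.corr a := by
    intro a b _ hb
    rw [composite, pf, cup, pb, pb]
    exact corr_comp' _ ((algSys W).even hb)
  have he : C.cl e ∈ (algSys W).C (P.prod P) := cl_alg' hC e
  rcases hirr c hc' (corrL_injective _ _ ((hce c c hc hc).trans hαα))
    (corrL_injective _ _ ((hce _ c he hc).trans h2))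
    (corrL_injective _ _ ((hce c _ hc he).trans h1)) with h | h
  · left
    rw [h, corr_zero]
  · right
    rw [h]

/-- The law for an irreducible motive. -/
theorem prim_mdl (hC : C.IsLawful) (T : CorrFunctor C) (X : 𝒱.Obj) (hX : ∀ n, C.NumNil (pw X n))
    (hn : ∀ n, HomEqNum W (pw X n)) {m : ℕ} (e : C.A (pw X m) (pw X m)) (he : C.comp e e = e)
    (hirr : IrreducibleIn IsAlgClass (C.cl e)) :
    (∀ x : T.M (pw X m), T.map e x = 0) ∨ ∀ n, FiniteDimensional W.K (T.M (pw X n)) →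
      rankBound (corrRank (C.cl e)) (finrank W.K (W.H X)) (cycRank ops (pw X n)) m n ≤
        finrank W.K (T.M (pw X n)) := by
  unfold rankBound
  by_cases hne : ∀ x : T.M (pw X m), T.map e x = 0
  · exact Or.inl hne
  right
  intro n hfd
  push Not at hne
  obtain ⟨x, hx⟩ := hne
  have hM := f_isMdl hC T
  rcases (algSys W).exists_one_or X with ⟨l, hl, hl1⟩ | h0
  swap
  · rw [← numDim_eq_cycRank W, h0, Nat.cast_zero, mul_zero]
    exact Nat.cast_nonneg _
  have hz : Stable (fOps T) (fun _ => ⊥) := by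
    intro X Z a _ x hx
    rw [(Submodule.mem_bot W.K).1 hx, map_zero]
    exact Submodule.zero_mem _
  have ht : Stable (fOps T) (fun _ => ⊤) := fun X Z a _ x _ => Submodule.mem_top
  have hfd' : FiniteDimensional W.K (⊤ : Submodule W.K (T.M (pw X n))) :=
    Module.Finite.equiv (Submodule.topEquiv).symm
  have hee : T.map e ∘ₗ T.map e = T.map e := by
    rw [← T.map_comp, he]
  have hgg : W.corr (C.cl e) ∘ₗ W.corr (C.cl e) = W.corr (C.cl e) := by
    rw [← corr_comp'' hC, he]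
  have key := bound_prim hM hl hl1 (fun m => f_fine hC T (hX m)) (fn_surj hC T) hz ht
    (fun _ => bot_le) (m := m) (g := T.map e) (γ := W.corr (C.cl e)) ⟨e, rfl, rfl⟩ hee hgg
    (prim_of hC hirr) (z := T.map e x) Submodule.mem_top
    (congrArg (fun f : T.M (pw X m) →ₗ[W.K] T.M (pw X m) => f x) hee)
    (fun h => hx ((Submodule.mem_bot W.K).1 h)) (le_refl (2 : ℝ)) n hfd'
  rw [finrank_bot, Nat.cast_zero, zero_add, finrank_top, Pool.Agent.X312.CH.cst_expand,
    numDim_eq_cycRank] at key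
  rcases key with h | h
  · exact h
  · have h1 := h (algSys W)
    have h2 := hn n
    rw [homEqNum_iff'] at h2
    have h3 : (2 : ℝ) * cycRank ops (pw X n) ≤ finrank W.K (algSpan W (pw X n)) := h1
    rw [← h2] at h3
    have h4 : (0 : ℝ) ≤ cycRank ops (pw X n) := Nat.cast_nonneg _
    have h5 : (cycRank ops (pw X n) : ℝ) = 0 := by linarith
    rw [h5, mul_zero]
    exact Nat.cast_nonneg _

/-- The law for an irreducible motive, for two stable families. -/
theorem prim_pair (hC : C.IsLawful) (T : CorrFunctor C) (X : 𝒱.Obj)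
    (hX : ∀ n, C.NumNil (pw X n)) (hn : ∀ n, HomEqNum W (pw X n))
    {N' N : ∀ Z : 𝒱.Obj, Submodule W.K (T.M Z)} (hN' : T.IsStable N') (hN : T.IsStable N)
    {m : ℕ} (e : C.A (pw X m) (pw X m)) (he : C.comp e e = e)
    (hirr : IrreducibleIn IsAlgClass (C.cl e)) :
    (∀ x ∈ N (pw X m), T.map e x ∈ N' (pw X m)) ∨
    ∀ n : ℕ, Pool.Agent.X312.FN.IndepModulo W.K (N (pw X n) : Set (T.M (pw X n)))
      (N' (pw X n) : Set (T.M (pw X n)))
      (rankBound (corrRank (C.cl e)) (finrank W.K (W.H X)) (cycRank ops (pw X n)) m n) := by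
  rcases prim_mdl hC (T.quo hN' hN) X hX hn e he hirr with h | h
  · left
    intro x hx
    have h1 := h ⟨(N' (pw X m)).mkQ x, x, hx, rfl⟩
    have h2 : (N' (pw X m)).mkQ (T.map e x) = 0 := congrArg Subtype.val h1
    rwa [Submodule.mkQ_apply, Submodule.Quotient.mk_eq_zero] at h2
  · right
    intro n
    exact indep_of _ _ (h n)

end Pool.Agent.X312.FK
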