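import Pool.Agent.X312.FK.ChowDefs
import Pool.Agent.X312.FK.IndDefs

/-!
# Pairings on functors of Chow motives
-/

open CategoryTheory AlgebraicGeometry

universe u v

namespace Pool.Agent.X312.FK

open Pool.Agent.H914 Pool.Agent.H914.VarClass Pool.Agent.H914.VarClass.Obj
  Pool.Agent.H914.WeilCohomology

variable {k : Type u} [Field k] {𝒱 : VarClass k} {ops : CycleOps 𝒱}
  {W : WeilCohomology.{u, v} ops} {C : ChowData W}

/-- The pairings `h Z : T(Z) × T(Z) → R` are linear in the first variable, and every correspondence `a`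
has a transpose `b` with `h (a x) y = h x (b y)`. -/
structure IsHeight (T : ChowModule C) {R : Type v} [AddCommGroup R] [Module W.K R]
    (h : ∀ Z : 𝒱.Obj, T.M Z → T.M Z → R) : Prop where
  add : ∀ (Z : 𝒱.Obj) (x y z : T.M Z), h Z (x + y) z = h Z x z + h Z y z
  smul : ∀ (Z : 𝒱.Obj) (t : W.K) (x z : T.M Z), h Z (t • x) z = t • h Z x z
  adj : ∀ {Z Z' : 𝒱.Obj} (a : C.A Z Z'), ∃ b : C.A Z' Z,
    ∀ (x : T.M Z) (y : T.M Z'), h Z' (T.act a x) y = h Z x (T.act b y)

end Pool.Agent.X312.FK
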