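import Pool.Agent.X312.FK.Chow
import Pool.Agent.X312.FK.RadDefs

/-!
# Radicals of height pairings: gap law
-/

open CategoryTheory AlgebraicGeometry

universe u v

namespace Pool.Agent.X312.FK

open Module
open Pool.Agent.H914 Pool.Agent.H914.VarClass Pool.Agent.H914.VarClass.Obj
  Pool.Agent.H914.WeilCohomology Pool.Agent.Y133.Half Pool.Agent.Y133.Half.Sys
  Pool.Agent.H281R3.HT

variable {k : Type u} [Field k] {𝒱 : VarClass k} {ops : CycleOps 𝒱}
  {W : WeilCohomology.{u, v} ops} {C : ChowData W} {T : ChowModule C} {R : Type v}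
  [AddCommGroup R] [Module W.K R] {h : ∀ Z : 𝒱.Obj, T.M Z → T.M Z → R}

/-- The radical. -/
def radS (hh : IsHeight T h) (Z : 𝒱.Obj) : Submodule W.K (T.M Z) where
  carrier := {x | ∀ y, h Z x y = 0}
  zero_mem' := fun y => by
    have h1 := hh.smul Z 0 0 y
    rwa [zero_smul, zero_smul] at h1
  add_mem' {a b} ha hb y := by rw [hh.add, ha y, hb y, add_zero]
  smul_mem' t a ha y := by rw [hh.smul, ha y, smul_zero]

/-- **The law for the radicals.** -/
theorem rad_law (hC : C.IsChow) (hT : T.IsFunctor) (hh : IsHeight T h)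
    (X : 𝒱.Obj) (hX : ∀ n, C.NumNil (pw X n)) (hn : ∀ n, HomEqNum W (pw X n)) (m : ℕ) :
    (∀ x : T.M (pw X m), (∀ y, h _ x y = 0) → x = 0) ∨
    ∀ n : ℕ, IndepMod {x : T.M (pw X n) | ∀ y, h _ x y = 0} (⊥ : Submodule W.K (T.M (pw X n)))
      (gapBound (finrank W.K (W.H X)) (cycRank ops (pw X n)) m n) := by
  rcases chow_law hC hT X hX hn (N' := fun _ => ⊥) (N := radS hh)
    (by
      intro Z Z' a x hx
      rw [(Submodule.mem_bot W.K).1 hx]
      exact (Submodule.mem_bot W.K).2 (map_zero ((fn hT).map a)))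
    (by
      intro Z Z' a x hx y
      obtain ⟨b, hb⟩ := hh.adj a
      rw [hb]
      exact hx _) m with h1 | h1
  · exact Or.inl fun x hx => (Submodule.mem_bot W.K).1 (h1 hx)
  · exact Or.inr h1

end Pool.Agent.X312.FK
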