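import Pool.Agent.X312.FK.Rk

/-!
# Natural transformations and irreducible motives: kernels and cokernels
-/

open CategoryTheory AlgebraicGeometry

universe u v

namespace Pool.Agent.X312.FK

open Module
open Pool.Agent.H914 Pool.Agent.H914.VarClass Pool.Agent.H914.VarClass.Obj
  Pool.Agent.H914.WeilCohomology Pool.Agent.Y133.Half Pool.Agent.Y133.Half.Sys
  Pool.Agent.H281R3.HT Pool.Agent.W536.RR
open Pool.Agent.X312.FC (corrRank rankBound)

variable {k : Type u} [Field k] {𝒱 : VarClass k} {ops : CycleOps 𝒱}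
  {W : WeilCohomology.{u, v} ops} {X Y Z : 𝒱.Obj} {C : ChowData W} {S T : ChowModule C}

/-- The cokernel law. -/
theorem rk_coker {c : ∀ Z : 𝒱.Obj, S.M Z → T.M Z} (hC : C.IsChow) (hS : S.IsFunctor)
    (hT : T.IsFunctor) (hc : IsRegulator S T c) (X : 𝒱.Obj)
    (hX : ∀ n, C.NumNil (pw X n)) (hn : ∀ n, HomEqNum W (pw X n))
    {m : ℕ} (e : C.A (pw X m) (pw X m)) (he : C.comp e e = e)
    (hirr : IrreducibleIn IsAlgClass (C.cl e)) {D : ℕ} (hD : RankGE (C.cl e) D) :
    (∀ y : T.M (pw X m), ∃ x, c _ x = T.act e y) ∨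
    ∀ n : ℕ, IndepMod (Set.univ : Set (T.M (pw X n)))
      (Submodule.span W.K (Set.range (c (pw X n))))
      (rankBound D (finrank W.K (W.H X)) (cycRank ops (pw X n)) m n) := by
  have hspan : ∀ Z : 𝒱.Obj, Submodule.span W.K (Set.range (c Z)) =
      LinearMap.range ((reg hS hT hc).c Z) := by
    intro Z
    have h2 : Set.range (c Z) = (LinearMap.range ((reg hS hT hc).c Z) : Set (T.M Z)) := by
      ext y; rfl
    rw [h2, Submodule.span_eq]
  rcases rk_pair hC hT X hX hn (N' := fun Z => LinearMap.range ((reg hS hT hc).c Z))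
    (N := fun _ => ⊤) (Pool.Agent.X312.FN.range_stable (reg hS hT hc))
    (fun _ _ _ _ _ => Submodule.mem_top) e he hirr hD with h | h
  · exact Or.inl fun y => h y Submodule.mem_top
  · right
    intro n
    rw [hspan]
    exact h n

/-- The law for kernels and cokernels. -/
theorem rk_iso {c : ∀ Z : 𝒱.Obj, S.M Z → T.M Z} (hC : C.IsChow) (hS : S.IsFunctor)
    (hT : T.IsFunctor) (hc : IsRegulator S T c) (X : 𝒱.Obj)
    (hX : ∀ n, C.NumNil (pw X n)) (hn : ∀ n, HomEqNum W (pw X n))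
    {m : ℕ} (e : C.A (pw X m) (pw X m)) (he : C.comp e e = e)
    (hirr : IrreducibleIn IsAlgClass (C.cl e)) {D : ℕ} (hD : RankGE (C.cl e) D) :
    ((∀ x : S.M (pw X m), c _ x = 0 → S.act e x = 0) ∧
      ∀ y : T.M (pw X m), ∃ x, c _ x = T.act e y) ∨
    (∀ n : ℕ, IndepMod {x : S.M (pw X n) | c _ x = 0} (⊥ : Submodule W.K (S.M (pw X n)))
      (rankBound D (finrank W.K (W.H X)) (cycRank ops (pw X n)) m n)) ∨
    ∀ n : ℕ, IndepMod (Set.univ : Set (T.M (pw X n)))
      (Submodule.span W.K (Set.range (c (pw X n))))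
      (rankBound D (finrank W.K (W.H X)) (cycRank ops (pw X n)) m n) := by
  rcases rk_ker hC hS hT hc X hX hn e he hirr hD with h | h
  · rcases rk_coker hC hS hT hc X hX hn e he hirr hD with h' | h'
    · exact Or.inl ⟨h, h'⟩
    · exact Or.inr (Or.inr h')
  · exact Or.inr (Or.inl h)

end Pool.Agent.X312.FK
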