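import Pool.Agent.X312.FK.CompDefs

/-!
# The rank of a self-correspondence
-/

open CategoryTheory AlgebraicGeometry

universe u v

namespace Pool.Agent.X312.FK

open Pool.Agent.H914 Pool.Agent.H914.VarClass Pool.Agent.H914.VarClass.Obj
  Pool.Agent.H914.WeilCohomology

variable {k : Type u} [Field k] {𝒱 : VarClass k} {ops : CycleOps 𝒱}
  {W : WeilCohomology.{u, v} ops}

/-- The action `x ↦ q_* (g p^* x)` of the self-correspondence `g` on the cohomology of `Z`. -/
noncomputable def corrMap {Z : 𝒱.Obj} (g : W.H (Z.prod Z)) (x : W.H Z) : W.H Z :=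
  pf W (snd Z Z) (cup W g (pb W (fst Z Z) x))

/-- The image of the self-correspondence `g` on the cohomology of `Z` has dimension at least `D`. -/
def RankGE {Z : 𝒱.Obj} (g : W.H (Z.prod Z)) (D : ℕ) : Prop :=
  ∃ x : Fin D → W.H Z, LinearIndependent W.K (fun i => corrMap g (x i))

end Pool.Agent.X312.FK
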